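import Pool.Agent.J6H38.ONL.FiniteStep

/-!
# Compactness: from finite subsets to the whole space
-/

namespace Pool.Agent.J6H38.ONL

open Finset Filter

theorem propA_of_cone {X : Type} [MetricSpace X]
    (hbg : ∀ R : ℝ, 0 < R → ∃ N : ℕ, ∀ x : X,
      (Metric.ball x R).Finite ∧ (Metric.ball x R).ncard ≤ N)
    {p q : ℝ} (hpq : p.HolderConjugate q) {κ : ℝ} (hκ : 0 < κ)
    (hcone : ∀ r : ℝ, 0 ≤ r → ∃ S0 : ℝ, ∀ Y : Finset X,
      ((fun _ => κ, fun _ => 1) : (Y × Y → ℝ) × (Y → ℝ)) ∈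
        coneC p q (fun x y : Y => dist (x : X) y ≤ r)
          (fun F => ∀ a ∈ F, ∀ b ∈ F, dist (a : X) b ≤ S0)) :
    ∀ R : ℝ, 0 < R → ∀ ε : ℝ, 0 < ε →
        ∃ S : ℝ, ∃ A : X → Set (X × ℕ),
          (∀ x, (A x).Finite) ∧ (∀ x, (x, 0) ∈ A x) ∧
          (∀ x, ∀ w ∈ A x, dist w.1 x ≤ S) ∧
          ∀ x y, dist x y < R →
            ((symmDiff (A x) (A y)).ncard : ℝ) < ε * ((A x ∩ A y).ncard : ℝ) := by
  classical
  intro R hR ε hε
  obtain ⟨K, hK⟩ := finite_step hpq hκ hε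
  obtain ⟨S0, hS0⟩ := hcone (K * R) (by positivity)
  set S : ℝ := max (S0 + K * R) 0 with hS
  have hS1 : S0 + K * R ≤ S := le_max_left _ _
  have hS2 : 0 ≤ S := le_max_right _ _
  obtain ⟨N, hN⟩ := hbg (S + 1) (by linarith)
  obtain ⟨M', hM'⟩ := hK S0 R N hR.le
  have hex : ∀ Y : Finset X, ∃ A : Y → Finset (Y × ℕ), (∀ x, (x, 0) ∈ A x) ∧
        (∀ x, ∀ w ∈ A x, (w.1 = x ∨ dist (w.1 : X) x ≤ S0 + K * R) ∧ w.2 ≤ M') ∧
        ∀ x y : Y, dist (x : X) y ≤ R →
          ((symmDiff (A x) (A y)).card : ℝ) < ε * ((A x ∩ A y).card : ℝ) := by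
    intro Y
    refine hM' Y (fun x y => dist (x : X) y) (fun x => dist_self _) (fun x y => dist_comm _ _)
      (fun x y z => dist_triangle _ _ _) (fun x => ?_) (hS0 Y)
    have h1 : ((univ.filter (fun z : Y => dist (z : X) x ≤ S0 + K * R)).image
        (fun z : Y => (z : X)) : Finset X).card ≤ N := by
      refine le_trans ?_ (hN x).2
      rw [← Set.ncard_coe_finset]
      refine Set.ncard_le_ncard ?_ (hN x).1
      intro z hz
      simp only [coe_image, coe_filter, mem_univ, true_and, Set.mem_image] at hz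
      obtain ⟨z', hz', rfl⟩ := hz
      rw [Metric.mem_ball]
      have : dist (z' : X) x ≤ S0 + K * R := hz'
      linarith
    rwa [card_image_of_injective _ Subtype.val_injective] at h1
  choose A hA1 hA2 hA3 using hex
  set 𝒰 : Ultrafilter (Finset X) := Ultrafilter.of atTop with h𝒰
  have hU : ∀ x : X, ∀ᶠ Y in (𝒰 : Filter (Finset X)), x ∈ Y := by
    intro x
    refine Ultrafilter.of_le atTop ?_
    filter_upwards [eventually_ge_atTop ({x} : Finset X)] with Y hY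
    exact hY (Finset.mem_singleton_self x)
  let j : (Y : Finset X) → Y × ℕ → X × ℕ := fun Y w => (w.1, w.2)
  have hj : ∀ Y, Function.Injective (j Y) := by
    rintro Y ⟨⟨a, ha⟩, n⟩ ⟨⟨b, hb⟩, m⟩ h
    simp only [j, Prod.mk.injEq] at h
    obtain ⟨h1, h2⟩ := h
    subst h1 h2
    rfl
  let A' : Finset X → X → Set (X × ℕ) := fun Y x =>
    if hx : x ∈ Y then j Y '' (A Y ⟨x, hx⟩ : Set (Y × ℕ)) else ∅
  have hA' : ∀ Y x (hx : x ∈ Y), A' Y x = j Y '' (A Y ⟨x, hx⟩ : Set (Y × ℕ)) := by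
    intro Y x hx
    simp only [A', hx, dif_pos]
  set box : X → Set (X × ℕ) := fun x => Metric.ball x (S + 1) ×ˢ Set.Iic M' with hbox
  have hboxfin : ∀ x, (box x).Finite := fun x => (hN x).1.prod (Set.finite_Iic _)
  have hsub : ∀ Y x, ∀ w ∈ A' Y x, w ∈ box x ∧ dist w.1 x ≤ S := by
    intro Y x w hw
    by_cases hx : x ∈ Y
    · rw [hA' Y x hx] at hw
      obtain ⟨w', hw', rfl⟩ := hw
      have h1 := hA2 Y ⟨x, hx⟩ w' hw'
      have h2 : dist (w'.1 : X) x ≤ S := by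
        rcases h1.1 with h | h
        · rw [h, dist_self]
          exact hS2
        · exact h.trans hS1
      refine ⟨⟨?_, h1.2⟩, h2⟩
      rw [Metric.mem_ball]
      change dist (w'.1 : X) x < S + 1
      linarith
    · simp only [A', hx, dif_neg, not_false_iff] at hw
      exact hw.elim
  set B : X → Set (X × ℕ) := fun x => {w | ∀ᶠ Y in (𝒰 : Filter (Finset X)), w ∈ A' Y x} with hB
  have hBsub : ∀ x, ∀ w ∈ B x, w ∈ box x ∧ dist w.1 x ≤ S := by
    intro x w hw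
    obtain ⟨Y, hY⟩ := (show ∀ᶠ Y in (𝒰 : Filter (Finset X)), w ∈ A' Y x from hw).exists
    exact hsub Y x w hY
  have hev : ∀ x, ∀ᶠ Y in (𝒰 : Filter (Finset X)), A' Y x = B x := by
    intro x
    have h1 : ∀ᶠ Y in (𝒰 : Filter (Finset X)), ∀ w ∈ box x, (w ∈ A' Y x ↔ w ∈ B x) := by
      rw [Filter.eventually_all_finite (hboxfin x)]
      intro w _
      by_cases hw : w ∈ B x
      · have h2 : ∀ᶠ Y in (𝒰 : Filter (Finset X)), w ∈ A' Y x := hw
        filter_upwards [h2] with Y hY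
        simp [hY, hw]
      · have h2 : ∀ᶠ Y in (𝒰 : Filter (Finset X)), ¬ (w ∈ A' Y x) := by
          rw [Ultrafilter.eventually_not]
          exact hw
        filter_upwards [h2] with Y hY
        simp [hY, hw]
    filter_upwards [h1] with Y hY
    ext w
    constructor
    · intro hw
      exact (hY w (hsub Y x w hw).1).mp hw
    · intro hw
      exact (hY w (hBsub x w hw).1).mpr hw
  refine ⟨S, B, fun x => (hboxfin x).subset fun w hw => (hBsub x w hw).1, fun x => ?_,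
    fun x w hw => (hBsub x w hw).2, fun x y hxy => ?_⟩
  · change ∀ᶠ Y in (𝒰 : Filter (Finset X)), (x, 0) ∈ A' Y x
    filter_upwards [hU x] with Y hY
    rw [hA' Y x hY]
    exact ⟨(⟨x, hY⟩, 0), hA1 Y ⟨x, hY⟩, rfl⟩
  · obtain ⟨Y, ⟨⟨hx, hy⟩, hx2⟩, hy2⟩ := ((((hU x).and (hU y)).and (hev x)).and (hev y)).exists
    rw [← hx2, ← hy2, hA' Y x hx, hA' Y y hy, ← Set.image_symmDiff (hj Y),
      ← Set.image_inter (hj Y), Set.ncard_image_of_injective _ (hj Y),
      Set.ncard_image_of_injective _ (hj Y), ← Finset.coe_symmDiff, ← Finset.coe_inter,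
      Set.ncard_coe_finset, Set.ncard_coe_finset]
    exact hA3 Y ⟨x, hx⟩ ⟨y, hy⟩ hxy.le

end Pool.Agent.J6H38.ONL
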