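import Mathlib

/-!
# Bounded geometry, the `p`-operator norm localization property, and property A
-/

namespace Pool.Agent.J6H38.ONL

open MeasureTheory
open scoped ENNReal

/-- Bounded geometry: for every `R > 0` the balls of radius `R` are finite, with uniformly bounded
cardinality. -/
def BoundedGeom (X : Type) [MetricSpace X] : Prop :=
  ∀ R : ℝ, 0 < R → ∃ N : ℕ, ∀ x : X, (Metric.ball x R).Finite ∧ (Metric.ball x R).ncard ≤ N

section

variable {X : Type} [MeasurableSpace X]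

/-- The Banach space `L^p(X, ν; E)`, Mathlib's `Lp E p ν`. -/
def LSpace (E : Type) [NormedAddCommGroup E] (p : ℝ≥0∞) (ν : Measure X) : Type := Lp E p ν

variable {E : Type} [NormedAddCommGroup E] {p : ℝ≥0∞} {ν : Measure X}

/-- The norm of `L^p(X, ν; E)` is the one of Mathlib's `Lp E p ν`. -/
noncomputable instance [Fact (1 ≤ p)] : NormedAddCommGroup (LSpace E p ν) :=
  inferInstanceAs (NormedAddCommGroup (Lp E p ν))

/-- The real vector space structure of `L^p(X, ν; E)` is the one of Mathlib's `Lp E p ν`. -/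
noncomputable instance [Fact (1 ≤ p)] [NormedSpace ℝ E] : NormedSpace ℝ (LSpace E p ν) :=
  inferInstanceAs (NormedSpace ℝ (Lp E p ν))

/-- An element of `L^p(X, ν; E)`, as an element of Mathlib's `Lp E p ν`. -/
def LSpace.toLp (g : LSpace E p ν) : Lp E p ν := g

/-- The element `g` of `L^p(X, ν; E)` vanishes almost everywhere outside of `S`. -/
def SupportedIn (g : LSpace E p ν) (S : Set X) : Prop := ∀ᵐ z ∂ν, z ∉ S → g.toLp z = 0

variable [MetricSpace X] [Fact (1 ≤ p)] [NormedSpace ℝ E]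

/-- The operator `T` on `L^p(X, ν; E)` has propagation at most `r`: all pairs `(x, y)` with
`dist x y > r` are outside of the support of `T`, i.e. have open neighbourhoods `U` of `x` and
`V` of `y` with `χ_V T χ_U = 0` (`T g` vanishes on `V` for all `g` supported in `U`). -/
def PropagationLe (T : LSpace E p ν →L[ℝ] LSpace E p ν) (r : ℝ) : Prop :=
  ∀ x y : X, r < dist x y → ∃ U V : Set X, IsOpen U ∧ IsOpen V ∧ x ∈ U ∧ y ∈ V ∧
    ∀ g : LSpace E p ν, SupportedIn g U → SupportedIn (T g) Vᶜ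

/-- There is a nonzero `ξ` in `L^p(X, ν; E)`, supported in a set of diameter at most `D`, with
`‖T ξ‖ ≥ c ‖T‖ ‖ξ‖`. -/
def LocallyAttained (T : LSpace E p ν →L[ℝ] LSpace E p ν) (c D : ℝ) : Prop :=
  ∃ ξ : LSpace E p ν, ξ ≠ 0 ∧ (∃ S : Set X, (∀ a ∈ S, ∀ b ∈ S, dist a b ≤ D) ∧ SupportedIn ξ S) ∧
    c * ‖T‖ * ‖ξ‖ ≤ ‖T ξ‖

end

/-- The `p`-operator norm localization property with coefficient space `E`: there are `0 < c ≤ 1`
and a nondecreasing `f : ℕ → ℕ` such that for every nonzero locally finite Borel measure `ν`,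
every `r` and every bounded operator `T` on `L^p(X, ν; E)` of propagation at most `r` there is a
nonzero `ξ`, supported in a set of diameter at most `f r`, with `‖T ξ‖ ≥ c ‖T‖ ‖ξ‖`. -/
def ONLWith (E : Type) [NormedAddCommGroup E] [NormedSpace ℝ E] (p : ℝ≥0∞) [Fact (1 ≤ p)]
    (X : Type) [MetricSpace X] [MeasurableSpace X] : Prop :=
  ∃ c : ℝ, 0 < c ∧ c ≤ 1 ∧ ∃ f : ℕ → ℕ, Monotone f ∧
    ∀ (ν : Measure X) [IsLocallyFiniteMeasure ν], ν ≠ 0 → ∀ r : ℕ,
      ∀ T : LSpace E p ν →L[ℝ] LSpace E p ν, PropagationLe T r → LocallyAttained T c (f r)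

/-- The `p`-operator norm localization property: the coefficient space is the real space `ℓ^p`. -/
def ONL (p : ℝ≥0∞) [Fact (1 ≤ p)] (X : Type) [MetricSpace X] [MeasurableSpace X] : Prop :=
  ONLWith (lp (fun _ : ℕ => ℝ) p) p X

/-- Yu's property A: for all `R, ε > 0` there are `S` and finite sets `A x` of pairs in `X × ℕ`
with `(x, 0) ∈ A x`, with first coordinates within distance `S` of `x`, such that
`|A x Δ A y| < ε |A x ∩ A y|` whenever `dist x y < R`. -/
def PropertyA (X : Type) [MetricSpace X] : Prop :=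
  ∀ R : ℝ, 0 < R → ∀ ε : ℝ, 0 < ε →
    ∃ S : ℝ, ∃ A : X → Set (X × ℕ),
      (∀ x, (A x).Finite) ∧ (∀ x, (x, 0) ∈ A x) ∧ (∀ x, ∀ w ∈ A x, dist w.1 x ≤ S) ∧
      ∀ x y, dist x y < R → ((symmDiff (A x) (A y)).ncard : ℝ) < ε * ((A x ∩ A y).ncard : ℝ)

end Pool.Agent.J6H38.ONL
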