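import Mathlib

/-!
# From slowly varying nonnegative functions to finite sets of pairs
-/

namespace Pool.Agent.J6H38.ONL

open Finset

variable {ι : Type*} [Fintype ι] [DecidableEq ι]

/-- The set below the graph of `N`. -/
def blk (N : ι → ℕ) : Finset (ι × ℕ) :=
  (Finset.univ.sigma fun z => range (N z)).map (Equiv.sigmaEquivProd ι ℕ).toEmbedding

omit [DecidableEq ι] in
lemma mem_blk {N : ι → ℕ} {w : ι × ℕ} : w ∈ blk N ↔ w.2 < N w.1 := by
  unfold blk
  simp only [mem_map_equiv, Equiv.sigmaEquivProd_symm_apply, mem_sigma, mem_univ, mem_range,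
    true_and]

omit [DecidableEq ι] in
lemma card_blk (N : ι → ℕ) : (blk N).card = ∑ z, N z := by
  unfold blk
  rw [card_map, card_sigma]
  simp

lemma card_blk_sdiff (N N' : ι → ℕ) : (blk N \ blk N').card = ∑ z, (N z - N' z) := by
  have h : blk N \ blk N' =
      (Finset.univ.sigma fun z => Ico (N' z) (N z)).map (Equiv.sigmaEquivProd ι ℕ).toEmbedding := by
    ext w
    simp only [mem_sdiff, mem_blk, mem_map_equiv, Equiv.sigmaEquivProd_symm_apply, mem_sigma,
      mem_univ, mem_Ico, true_and, not_lt]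
    exact and_comm
  rw [h, card_map, card_sigma]
  simp

lemma card_blk_symmDiff (N N' : ι → ℕ) :
    ((symmDiff (blk N) (blk N')).card : ℝ) = ∑ z, |(N z : ℝ) - N' z| := by
  have h : (symmDiff (blk N) (blk N')).card = (blk N \ blk N').card + (blk N' \ blk N).card := by
    have h1 : symmDiff (blk N) (blk N') = (blk N \ blk N') ∪ (blk N' \ blk N) := rfl
    rw [h1, card_union_of_disjoint]
    exact disjoint_sdiff_sdiff
  rw [h, card_blk_sdiff, card_blk_sdiff, ← Finset.sum_add_distrib, Nat.cast_sum]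
  refine Finset.sum_congr rfl fun z _ => ?_
  rcases le_total (N z) (N' z) with h1 | h1
  · rw [Nat.sub_eq_zero_of_le h1, zero_add, Nat.cast_sub h1, abs_sub_comm, abs_of_nonneg]
    rw [sub_nonneg]
    exact_mod_cast h1
  · rw [Nat.sub_eq_zero_of_le h1, add_zero, Nat.cast_sub h1, abs_of_nonneg]
    rw [sub_nonneg]
    exact_mod_cast h1

/-- Discretization. -/
theorem discretize (ψ : ι → ι → ℝ) (h0 : ∀ x z, 0 ≤ ψ x z) (sp : ι → Finset ι) (N : ℕ)
    (hsp : ∀ x z, ψ x z ≠ 0 → z ∈ sp x) (hcard : ∀ x, (sp x).card ≤ N) {m0 E1 ε : ℝ}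
    (hε : 0 < ε) (hm : ∀ x, m0 ≤ ∑ z, ψ x z) (M : ℕ)
    (hM : (1 + ε) * (2 * N + 2) + ε * N < M * (ε * m0 - (1 + ε) * E1)) :
    ∃ A : ι → Finset (ι × ℕ), (∀ x, (x, 0) ∈ A x) ∧
      (∀ x, ∀ w ∈ A x, w = (x, 0) ∨ (w.1 ∈ sp x ∧ (w.2 : ℝ) ≤ M * ψ x w.1)) ∧
      ∀ x y, ∑ z, |ψ x z - ψ y z| ≤ E1 →
        ((symmDiff (A x) (A y)).card : ℝ) < ε * ((A x ∩ A y).card : ℝ) := by
  set n : ι → ι → ℕ := fun x z => ⌊M * ψ x z⌋₊ with hn
  refine ⟨fun x => insert (x, 0) (blk (n x)), fun x => mem_insert_self _ _, ?_, ?_⟩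
  · intro x w hw
    rcases mem_insert.mp hw with h | h
    · exact Or.inl h
    · right
      rw [mem_blk] at h
      have h1 : (w.2 : ℝ) < (⌊M * ψ x w.1⌋₊ : ℕ) := by exact_mod_cast h
      have h2 : ((⌊M * ψ x w.1⌋₊ : ℕ) : ℝ) ≤ M * ψ x w.1 :=
        Nat.floor_le (mul_nonneg (Nat.cast_nonneg _) (h0 _ _))
      refine ⟨hsp _ _ ?_, by linarith⟩
      intro h3
      have h4 := h1.trans_le h2
      rw [h3, mul_zero] at h4
      have : (0 : ℝ) ≤ w.2 := Nat.cast_nonneg _
      linarith
  · intro x y hxy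
    -- the symmetric difference
    have hb : ∀ z, |(n x z : ℝ) - n y z| ≤ M * |ψ x z - ψ y z| +
        (if z ∈ sp x ∪ sp y then 1 else 0) := by
      intro z
      by_cases hz : z ∈ sp x ∪ sp y
      · rw [if_pos hz]
        have a1 : (n x z : ℝ) ≤ M * ψ x z := Nat.floor_le (mul_nonneg (Nat.cast_nonneg _) (h0 _ _))
        have a2 : (n y z : ℝ) ≤ M * ψ y z := Nat.floor_le (mul_nonneg (Nat.cast_nonneg _) (h0 _ _))
        have a3 : M * ψ x z < n x z + 1 := Nat.lt_floor_add_one _
        have a4 : M * ψ y z < n y z + 1 := Nat.lt_floor_add_one _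
        have a5 : M * (ψ x z - ψ y z) ≤ M * |ψ x z - ψ y z| :=
          mul_le_mul_of_nonneg_left (le_abs_self _) (Nat.cast_nonneg _)
        have a6 : M * (-(ψ x z - ψ y z)) ≤ M * |ψ x z - ψ y z| :=
          mul_le_mul_of_nonneg_left (neg_le_abs _) (Nat.cast_nonneg _)
        rw [abs_le]
        constructor <;> nlinarith
      · rw [if_neg hz]
        rw [mem_union, not_or] at hz
        have b1 : ψ x z = 0 := by
          by_contra hne
          exact hz.1 (hsp _ _ hne)
        have b2 : ψ y z = 0 := by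
          by_contra hne
          exact hz.2 (hsp _ _ hne)
        simp [hn, b1, b2]
    have hsd : ((symmDiff (blk (n x)) (blk (n y))).card : ℝ) ≤ M * E1 + 2 * N := by
      rw [card_blk_symmDiff]
      refine (Finset.sum_le_sum fun z _ => hb z).trans ?_
      rw [Finset.sum_add_distrib, ← Finset.mul_sum]
      have c1 : (M : ℝ) * ∑ z, |ψ x z - ψ y z| ≤ M * E1 :=
        mul_le_mul_of_nonneg_left hxy (Nat.cast_nonneg _)
      have c2 : ∑ z, (if z ∈ sp x ∪ sp y then (1 : ℝ) else 0) = ((sp x ∪ sp y).card : ℝ) := by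
        rw [Finset.sum_ite_mem, Finset.univ_inter, Finset.sum_const, nsmul_eq_mul, mul_one]
      have c3 : ((sp x ∪ sp y).card : ℝ) ≤ 2 * N := by
        have : (sp x ∪ sp y).card ≤ 2 * N := (card_union_le _ _).trans (by
          have := hcard x
          have := hcard y
          omega)
        exact_mod_cast this
      rw [c2]
      linarith
    have hsd2 : ((symmDiff (insert (x, 0) (blk (n x))) (insert (y, 0) (blk (n y)))).card : ℝ) ≤
        M * E1 + 2 * N + 2 := by
      have h1 : symmDiff (insert (x, 0) (blk (n x))) (insert (y, 0) (blk (n y))) ⊆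
          insert (x, 0) (insert (y, 0) (symmDiff (blk (n x)) (blk (n y)))) := by
        intro w
        simp only [mem_symmDiff, mem_insert]
        tauto
      have h2 := (card_le_card h1).trans ((card_insert_le _ _).trans
        (Nat.add_le_add_right (card_insert_le _ _) 1))
      have h3 : ((symmDiff (insert (x, 0) (blk (n x))) (insert (y, 0) (blk (n y)))).card : ℝ) ≤
          ((symmDiff (blk (n x)) (blk (n y))).card : ℝ) + 1 + 1 := by exact_mod_cast h2
      linarith
    -- the mass
    have hmass : M * m0 - N ≤ ((blk (n x)).card : ℝ) := by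
      rw [card_blk, Nat.cast_sum]
      have d1 : ∀ z, M * ψ x z - (if z ∈ sp x then 1 else 0) ≤ (n x z : ℝ) := by
        intro z
        by_cases hz : z ∈ sp x
        · rw [if_pos hz]
          have a3 : M * ψ x z < n x z + 1 := Nat.lt_floor_add_one _
          linarith
        · rw [if_neg hz]
          have b1 : ψ x z = 0 := by
            by_contra hne
            exact hz (hsp _ _ hne)
          simp [hn, b1]
      refine le_trans ?_ (Finset.sum_le_sum fun z _ => d1 z)
      rw [Finset.sum_sub_distrib, ← Finset.mul_sum, Finset.sum_ite_mem, Finset.univ_inter,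
        Finset.sum_const, nsmul_eq_mul, mul_one]
      have c1 : (M : ℝ) * m0 ≤ M * ∑ z, ψ x z :=
        mul_le_mul_of_nonneg_left (hm x) (Nat.cast_nonneg _)
      have c2 : ((sp x).card : ℝ) ≤ N := by exact_mod_cast hcard x
      linarith
    have hint : ((blk (n x)).card : ℝ) - ((symmDiff (blk (n x)) (blk (n y))).card : ℝ) ≤
        ((insert (x, 0) (blk (n x)) ∩ insert (y, 0) (blk (n y))).card : ℝ) := by
      have e1 : (blk (n x)).card ≤ (insert (x, 0) (blk (n x)) ∩ insert (y, 0) (blk (n y))).card +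
          (symmDiff (blk (n x)) (blk (n y))).card := by
        refine le_trans (card_le_card ?_) (card_union_le _ _)
        intro w
        simp only [mem_union, mem_inter, mem_insert, mem_symmDiff]
        tauto
      have e2 : ((blk (n x)).card : ℝ) ≤
          ((insert (x, 0) (blk (n x)) ∩ insert (y, 0) (blk (n y))).card : ℝ) +
          ((symmDiff (blk (n x)) (blk (n y))).card : ℝ) := by exact_mod_cast e1
      linarith
    have f1 : ε * (M * m0 - N - (M * E1 + 2 * N)) ≤
        ε * ((insert (x, 0) (blk (n x)) ∩ insert (y, 0) (blk (n y))).card : ℝ) :=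
      mul_le_mul_of_nonneg_left (by linarith) hε.le
    nlinarith

end Pool.Agent.J6H38.ONL
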