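import Mathlib

/-!
# A duality lemma for local kernels on a finite set

The Hahn-Banach theorem: either there are local functions `ξ i`, `η i` with
`∑ ξ i x * η i y ≥ κ` on a relation `D` and `∑ (ξ i x ^ p / p + η i x ^ q / q) ≤ 1`, or there are
weights which witness the contrary.
-/

namespace Pool.Agent.J6H38.ONL

open Finset

variable {ι : Type*} [Fintype ι] [DecidableEq ι]

/-- The cone of the pairs (kernel, size) which are dominated by local families. -/
def coneC (p q : ℝ) (D : ι → ι → Prop) (Loc : Set ι → Prop) : Set ((ι × ι → ℝ) × (ι → ℝ)) :=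
  {z | ∃ (I : Type) (_ : Fintype I) (ξ η : I → ι → ℝ), (∀ i x, 0 ≤ ξ i x) ∧ (∀ i x, 0 ≤ η i x) ∧
    (∀ i, ∃ F, Loc F ∧ ∀ x, x ∉ F → ξ i x = 0 ∧ η i x = 0) ∧
    (∀ x y, D x y → z.1 (x, y) ≤ ∑ i, ξ i x * η i y) ∧
    (∀ x, ∑ i, (ξ i x ^ p / p + η i x ^ q / q) ≤ z.2 x)}

variable {p q : ℝ} {D : ι → ι → Prop} {Loc : Set ι → Prop}

omit [Fintype ι] [DecidableEq ι] in
lemma cone_zero : (0 : (ι × ι → ℝ) × (ι → ℝ)) ∈ coneC p q D Loc := by
  refine ⟨Empty, inferInstance, fun i => i.elim, fun i => i.elim, fun i => i.elim, fun i => i.elim,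
    fun i => i.elim, fun x y _ => ?_, fun x => ?_⟩ <;> simp

omit [Fintype ι] [DecidableEq ι] in
lemma cone_add {z w : (ι × ι → ℝ) × (ι → ℝ)} (hz : z ∈ coneC p q D Loc) (hw : w ∈ coneC p q D Loc) :
    z + w ∈ coneC p q D Loc := by
  obtain ⟨I, hI, ξ, η, h1, h2, h3, h4, h5⟩ := hz
  obtain ⟨J, hJ, ξ', η', h1', h2', h3', h4', h5'⟩ := hw
  refine ⟨I ⊕ J, inferInstance, Sum.elim ξ ξ', Sum.elim η η', ?_, ?_, ?_, ?_, ?_⟩
  · rintro (i | i) x
    · exact h1 i x
    · exact h1' i x
  · rintro (i | i) x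
    · exact h2 i x
    · exact h2' i x
  · rintro (i | i)
    · exact h3 i
    · exact h3' i
  · intro x y hD
    rw [Fintype.sum_sum_type]
    exact add_le_add (h4 x y hD) (h4' x y hD)
  · intro x
    rw [Fintype.sum_sum_type]
    exact add_le_add (h5 x) (h5' x)

omit [Fintype ι] [DecidableEq ι] in
lemma cone_smul (hpq : p.HolderConjugate q) {z : (ι × ι → ℝ) × (ι → ℝ)}
    (hz : z ∈ coneC p q D Loc) {l : ℝ} (hl : 0 ≤ l) : l • z ∈ coneC p q D Loc := by
  obtain ⟨I, hI, ξ, η, h1, h2, h3, h4, h5⟩ := hz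
  have hp := hpq.pos
  have hq := hpq.symm.pos
  have hpw : ∀ a : ℝ, 0 ≤ a → (l ^ (1 / p) * a) ^ p = l * a ^ p := by
    intro a ha
    rw [Real.mul_rpow (Real.rpow_nonneg hl _) ha, ← Real.rpow_mul hl, one_div_mul_cancel hp.ne',
      Real.rpow_one]
  have hqw : ∀ a : ℝ, 0 ≤ a → (l ^ (1 / q) * a) ^ q = l * a ^ q := by
    intro a ha
    rw [Real.mul_rpow (Real.rpow_nonneg hl _) ha, ← Real.rpow_mul hl, one_div_mul_cancel hq.ne',
      Real.rpow_one]
  have hpql : l ^ (1 / p) * l ^ (1 / q) = l := by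
    rw [← Real.rpow_add_of_nonneg hl (by positivity) (by positivity)]
    have : 1 / p + 1 / q = 1 := by
      rw [one_div, one_div]
      exact hpq.inv_add_inv_eq_one
    rw [this, Real.rpow_one]
  refine ⟨I, hI, fun i x => l ^ (1 / p) * ξ i x, fun i x => l ^ (1 / q) * η i x, ?_, ?_, ?_, ?_, ?_⟩
  · intro i x
    exact mul_nonneg (Real.rpow_nonneg hl _) (h1 i x)
  · intro i x
    exact mul_nonneg (Real.rpow_nonneg hl _) (h2 i x)
  · intro i
    obtain ⟨F, hF, hF2⟩ := h3 i
    refine ⟨F, hF, fun x hx => ?_⟩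
    dsimp only
    rw [(hF2 x hx).1, (hF2 x hx).2, mul_zero, mul_zero]
    exact ⟨rfl, rfl⟩
  · intro x y hD
    have e : ∑ i, l ^ (1 / p) * ξ i x * (l ^ (1 / q) * η i y) = l * ∑ i, ξ i x * η i y := by
      rw [Finset.mul_sum]
      refine Finset.sum_congr rfl fun i _ => ?_
      rw [mul_mul_mul_comm, hpql]
    rw [e]
    exact mul_le_mul_of_nonneg_left (h4 x y hD) hl
  · intro x
    have e : ∑ i, ((l ^ (1 / p) * ξ i x) ^ p / p + (l ^ (1 / q) * η i x) ^ q / q) =
        l * ∑ i, (ξ i x ^ p / p + η i x ^ q / q) := by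
      rw [Finset.mul_sum]
      refine Finset.sum_congr rfl fun i _ => ?_
      rw [hpw _ (h1 i x), hqw _ (h2 i x)]
      ring
    rw [e]
    exact mul_le_mul_of_nonneg_left (h5 x) hl

omit [Fintype ι] [DecidableEq ι] in
lemma cone_mono {z w : (ι × ι → ℝ) × (ι → ℝ)} (hz : z ∈ coneC p q D Loc)
    (h1 : ∀ x y, D x y → w.1 (x, y) ≤ z.1 (x, y)) (h2 : ∀ x, z.2 x ≤ w.2 x) :
    w ∈ coneC p q D Loc := by
  obtain ⟨I, hI, ξ, η, a1, a2, a3, a4, a5⟩ := hz
  exact ⟨I, hI, ξ, η, a1, a2, a3, fun x y hD => (h1 x y hD).trans (a4 x y hD),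
    fun x => (a5 x).trans (h2 x)⟩

omit [Fintype ι] [DecidableEq ι] in
lemma cone_single {F : Set ι} (hF : Loc F) {ξ η : ι → ℝ} (h1 : ∀ x, 0 ≤ ξ x) (h2 : ∀ x, 0 ≤ η x)
    (h3 : ∀ x, x ∉ F → ξ x = 0 ∧ η x = 0) :
    ((fun z => ξ z.1 * η z.2, fun x => ξ x ^ p / p + η x ^ q / q) : (ι × ι → ℝ) × (ι → ℝ)) ∈
      coneC p q D Loc := by
  refine ⟨Unit, inferInstance, fun _ => ξ, fun _ => η, fun _ => h1, fun _ => h2,
    fun _ => ⟨F, hF, h3⟩, fun x y _ => ?_, fun x => ?_⟩ <;> simp

omit [Fintype ι] [DecidableEq ι] in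
lemma cone_convex (hpq : p.HolderConjugate q) : Convex ℝ (coneC p q D Loc) := by
  intro z hz w hw a b ha hb _
  exact cone_add (cone_smul hpq hz ha) (cone_smul hpq hw hb)

/-- The duality lemma. -/
theorem dual_exists (hpq : p.HolderConjugate q) {c κ : ℝ} (hκ0 : 0 ≤ κ) (hκ : κ < c)
    (hyp : ∀ (t : ι → ι → ℝ) (α : ι → ℝ), (∀ x y, 0 ≤ t x y) → (∀ x, 0 ≤ α x) →
      (∀ x y, ¬ D x y → t x y = 0) →
      (∀ F, Loc F → ∀ ξ η : ι → ℝ, (∀ x, 0 ≤ ξ x) → (∀ x, 0 ≤ η x) →
        (∀ x, x ∉ F → ξ x = 0 ∧ η x = 0) →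
        ∑ x, ∑ y, t x y * (ξ x * η y) ≤ ∑ x, α x * (ξ x ^ p / p + η x ^ q / q)) →
      c * ∑ x, ∑ y, t x y ≤ ∑ x, α x) :
    ((fun _ => κ, fun _ => 1) : (ι × ι → ℝ) × (ι → ℝ)) ∈ coneC p q D Loc := by
  classical
  obtain ⟨κ', hκ1, hκ2⟩ := exists_between hκ
  set z0 : (ι × ι → ℝ) × (ι → ℝ) := (fun _ => κ', fun _ => 1) with hz0
  have hcl : z0 ∈ closure (coneC p q D Loc) := by
    by_contra hcon
    obtain ⟨f, u, hf1, hf2⟩ := geometric_hahn_banach_closed_point
      (cone_convex (D := D) (Loc := Loc) hpq).closure isClosed_closure hcon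
    have hu : 0 < u := by
      have := hf1 0 (subset_closure cone_zero)
      rwa [map_zero] at this
    have hneg : ∀ z ∈ coneC p q D Loc, f z ≤ 0 := by
      intro z hz
      by_contra hpos
      push Not at hpos
      have h1 := hf1 ((u / f z) • z) (subset_closure (cone_smul hpq hz (by positivity)))
      rw [map_smul, smul_eq_mul, div_mul_cancel₀ _ hpos.ne'] at h1
      exact lt_irrefl _ h1
    set t : ι → ι → ℝ := fun x y => f (Pi.single (x, y) 1, 0) with ht
    set α : ι → ℝ := fun x => - f (0, Pi.single x 1) with hα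
    have hexp : ∀ z : (ι × ι → ℝ) × (ι → ℝ), f z = ∑ x, ∑ y, t x y * z.1 (x, y) - ∑ x, α x * z.2 x := by
      intro z
      have e1 : z = (z.1, 0) + (0, z.2) := by simp
      have e2 : z.1 = ∑ w : ι × ι, z.1 w • Pi.single w (1 : ℝ) := by
        ext w
        simp [Finset.sum_apply, Pi.single_apply]
      have e3 : z.2 = ∑ x : ι, z.2 x • Pi.single x (1 : ℝ) := by
        ext w
        simp [Finset.sum_apply, Pi.single_apply]
      have e4 : f (z.1, 0) = ∑ x, ∑ y, t x y * z.1 (x, y) := by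
        have h1 : ((z.1, 0) : (ι × ι → ℝ) × (ι → ℝ)) =
            ContinuousLinearMap.inl ℝ (ι × ι → ℝ) (ι → ℝ) z.1 := rfl
        rw [h1]
        conv_lhs => rw [e2]
        rw [map_sum, map_sum, Fintype.sum_prod_type]
        refine Finset.sum_congr rfl fun x _ => Finset.sum_congr rfl fun y _ => ?_
        rw [map_smul, map_smul, smul_eq_mul, mul_comm]
        rfl
      have e5 : f (0, z.2) = - ∑ x, α x * z.2 x := by
        have h1 : ((0, z.2) : (ι × ι → ℝ) × (ι → ℝ)) =
            ContinuousLinearMap.inr ℝ (ι × ι → ℝ) (ι → ℝ) z.2 := rfl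
        rw [h1]
        conv_lhs => rw [e3]
        rw [map_sum, map_sum, ← Finset.sum_neg_distrib]
        refine Finset.sum_congr rfl fun x _ => ?_
        rw [map_smul, map_smul, smul_eq_mul, hα]
        dsimp only
        rw [ContinuousLinearMap.inr_apply]
        ring
      conv_lhs => rw [e1]
      rw [map_add, e4, e5]
      ring
    have h1 := hyp t α ?_ ?_ ?_ ?_
    · have h2 := hf2.trans_le' hu.le
      rw [hexp] at hf2
      simp only [hz0, mul_one] at hf2
      simp_rw [← Finset.sum_mul] at hf2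
      have h3 : 0 ≤ ∑ x, ∑ y, t x y := by
        refine Finset.sum_nonneg fun x _ => Finset.sum_nonneg fun y _ => ?_
        by_contra hcon2
        push Not at hcon2
        have h4 := hneg (-(Pi.single (x, y) 1), 0) (cone_mono (cone_zero) (fun a b _ => ?_)
          fun a => le_rfl)
        · have h5 : f (-(Pi.single (x, y) 1), 0) = - t x y := by
            rw [ht]
            dsimp only
            rw [← map_neg, Prod.neg_mk, neg_zero]
          rw [h5] at h4
          linarith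
        · simp only [Pi.neg_apply, Prod.fst_zero, Pi.zero_apply, Left.neg_nonpos_iff]
          rw [Pi.single_apply]
          split_ifs <;> norm_num
      nlinarith
    · intro x y
      have h4 := hneg (-(Pi.single (x, y) 1), 0) (cone_mono (cone_zero) (fun a b _ => ?_)
          fun a => le_rfl)
      · have h5 : f (-(Pi.single (x, y) 1), 0) = - t x y := by
          rw [ht]
          dsimp only
          rw [← map_neg, Prod.neg_mk, neg_zero]
        rw [h5] at h4
        linarith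
      · simp only [Pi.neg_apply, Prod.fst_zero, Pi.zero_apply, Left.neg_nonpos_iff]
        rw [Pi.single_apply]
        split_ifs <;> norm_num
    · intro x
      have h4 := hneg (0, Pi.single x 1) (cone_mono (cone_zero) (fun a b _ => le_rfl)
          fun a => ?_)
      · rw [hα]
        dsimp only
        linarith
      · simp only [Prod.snd_zero, Pi.zero_apply]
        rw [Pi.single_apply]
        split_ifs <;> norm_num
    · intro x y hD
      have h4 : ∀ s : ℝ, f (s • Pi.single (x, y) 1, 0) ≤ 0 := by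
        intro s
        refine hneg _ (cone_mono (cone_zero) (fun a b hab => ?_) fun a => le_rfl)
        simp only [Pi.smul_apply, smul_eq_mul, Prod.fst_zero, Pi.zero_apply]
        rw [Pi.single_apply, if_neg, mul_zero]
        intro he
        rw [Prod.mk.injEq] at he
        rw [he.1, he.2] at hab
        exact hD hab
      have h5 : ∀ s : ℝ, f (s • Pi.single (x, y) 1, 0) = s * t x y := by
        intro s
        have : ((s • Pi.single (x, y) 1, 0) : (ι × ι → ℝ) × (ι → ℝ)) = s • (Pi.single (x, y) 1, 0) := by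
          rw [Prod.smul_mk, smul_zero]
        rw [this, map_smul, smul_eq_mul]
      have h6 := h4 1
      have h7 := h4 (-1)
      rw [h5] at h6 h7
      linarith
    · intro F hF ξ η h1 h2 h3
      have h4 := hneg _ (cone_single (p := p) (q := q) (D := D) hF h1 h2 h3)
      rw [hexp] at h4
      linarith
  set δ : ℝ := (κ' - κ) / (1 + κ) with hδ
  have hδ0 : 0 < δ := div_pos (by linarith) (by linarith)
  have hδ1 : δ * (1 + κ) = κ' - κ := by
    rw [hδ]
    field_simp
  obtain ⟨z, hz, hz2⟩ := Metric.mem_closure_iff.mp hcl δ hδ0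
  have hz3 : ∀ x y, κ' - δ ≤ z.1 (x, y) := by
    intro x y
    have h1 : dist (z0.1 (x, y)) (z.1 (x, y)) ≤ dist z0 z :=
      (dist_le_pi_dist z0.1 z.1 (x, y)).trans (le_max_left _ _)
    rw [Real.dist_eq] at h1
    have h2 := (abs_lt.mp (h1.trans_lt hz2)).2
    simp only [hz0] at h2
    linarith
  have hz4 : ∀ x, z.2 x ≤ 1 + δ := by
    intro x
    have h1 : dist (z0.2 x) (z.2 x) ≤ dist z0 z :=
      (dist_le_pi_dist z0.2 z.2 x).trans (le_max_right _ _)
    rw [Real.dist_eq] at h1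
    have h2 := (abs_lt.mp (h1.trans_lt hz2)).1
    simp only [hz0] at h2
    linarith
  refine cone_mono (cone_smul hpq hz (l := (1 + δ)⁻¹) (by positivity)) (fun x y _ => ?_) fun x => ?_
  · simp only [Prod.smul_fst, Pi.smul_apply, smul_eq_mul]
    rw [inv_mul_eq_div, le_div_iff₀ (by positivity)]
    have := hz3 x y
    nlinarith
  · simp only [Prod.smul_snd, Pi.smul_apply, smul_eq_mul]
    rw [inv_mul_eq_div, div_le_iff₀ (by positivity), one_mul]
    exact hz4 x

end Pool.Agent.J6H38.ONL
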