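import Mathlib

/-!
# From `ℓ^p × ℓ^q` kernels to Hilbert space kernels, and the averaging of vectors of minimal norm
-/

namespace Pool.Agent.J6H38.ONL

open Finset

lemma young_mix_aux {p q : ℝ} (hpq : p.HolderConjugate q) (hp2 : 2 ≤ p) {δ : ℝ} (hδ : 0 < δ) :
    ∃ l : ℝ, 0 < l ∧ ∀ a b : ℝ, 0 ≤ a → 0 ≤ b →
      a * b ≤ l * (a ^ (p / 2) * b ^ (q / 2)) + δ * b ^ q := by
  have hp := hpq.pos
  have hq := hpq.symm.pos
  set θ : ℝ := 2 / p with hθ
  have hθ0 : 0 < θ := by positivity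
  have hθ1 : θ ≤ 1 := by
    rw [hθ, div_le_one hp]
    exact hp2
  set l : ℝ := δ ^ (-(1 - θ) / θ) with hl
  have hl0 : 0 < l := Real.rpow_pos_of_pos hδ _
  refine ⟨l, hl0, fun a b ha hb => ?_⟩
  have h1 := Real.geom_mean_le_arith_mean2_weighted (w₁ := θ) (w₂ := 1 - θ)
    (p₁ := l * (a ^ (p / 2) * b ^ (q / 2))) (p₂ := δ * b ^ q) hθ0.le (by linarith)
    (by positivity) (by positivity) (by ring)
  have e1 : (l * (a ^ (p / 2) * b ^ (q / 2))) ^ θ * (δ * b ^ q) ^ (1 - θ) = a * b := by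
    rw [Real.mul_rpow hl0.le (by positivity), Real.mul_rpow (by positivity) (by positivity),
      Real.mul_rpow hδ.le (by positivity), hl, ← Real.rpow_mul hδ.le, ← Real.rpow_mul ha,
      ← Real.rpow_mul hb, ← Real.rpow_mul hb]
    have f1 : -(1 - θ) / θ * θ = -(1 - θ) := by field_simp
    have f2 : p / 2 * θ = 1 := by
      rw [hθ]
      field_simp
    have f3 : q / 2 * θ + q * (1 - θ) = 1 := by
      have h := hpq.inv_add_inv_eq_one
      rw [hθ]
      have h2 : q + p = p * q := by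
        field_simp at h
        linarith
      field_simp
      nlinarith
    rw [f1, f2, Real.rpow_one]
    have e2 : δ ^ (-(1 - θ)) * (a * b ^ (q / 2 * θ)) * (δ ^ (1 - θ) * b ^ (q * (1 - θ))) =
        (δ ^ (-(1 - θ)) * δ ^ (1 - θ)) * a * (b ^ (q / 2 * θ) * b ^ (q * (1 - θ))) := by ring
    rw [e2, ← Real.rpow_add hδ, neg_add_cancel, Real.rpow_zero, one_mul,
      ← Real.rpow_add_of_nonneg hb (by positivity) (mul_nonneg hq.le (by linarith)), f3,
      Real.rpow_one]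
  rw [e1] at h1
  have h2 : θ * (l * (a ^ (p / 2) * b ^ (q / 2))) ≤ 1 * (l * (a ^ (p / 2) * b ^ (q / 2))) :=
    mul_le_mul_of_nonneg_right hθ1 (by positivity)
  have h3 : (1 - θ) * (δ * b ^ q) ≤ 1 * (δ * b ^ q) :=
    mul_le_mul_of_nonneg_right (by linarith) (by positivity)
  linarith

lemma young_mix {p q : ℝ} (hpq : p.HolderConjugate q) {δ : ℝ} (hδ : 0 < δ) :
    ∃ l : ℝ, 0 < l ∧ ∀ a b : ℝ, 0 ≤ a → 0 ≤ b →
      a * b ≤ l * (a ^ (p / 2) * b ^ (q / 2)) + δ * (a ^ p + b ^ q) := by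
  rcases le_or_gt 2 p with h | h
  · obtain ⟨l, hl, h1⟩ := young_mix_aux hpq h hδ
    refine ⟨l, hl, fun a b ha hb => (h1 a b ha hb).trans ?_⟩
    have : 0 ≤ δ * a ^ p := by positivity
    linarith
  · have hq2 : 2 ≤ q := by
      have h2 := hpq.inv_add_inv_eq_one
      have hp := hpq.pos
      have hq := hpq.symm.pos
      by_contra hcon
      push Not at hcon
      have e1 : 1 / 2 < p⁻¹ := by
        rw [one_div]
        exact inv_strictAnti₀ hp h
      have e2 : 1 / 2 < q⁻¹ := by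
        rw [one_div]
        exact inv_strictAnti₀ hq hcon
      linarith
    obtain ⟨l, hl, h1⟩ := young_mix_aux hpq.symm hq2 hδ
    refine ⟨l, hl, fun a b ha hb => ?_⟩
    have h2 := h1 b a hb ha
    have : 0 ≤ δ * b ^ q := by positivity
    rw [mul_comm b a, mul_comm (b ^ (q / 2))] at h2
    linarith

/-- A lower bound for the Hilbert space kernel. -/
lemma hilbert_lower {p q : ℝ} (hpq : p.HolderConjugate q) {κ : ℝ} (hκ : 0 < κ) :
    ∃ κ' : ℝ, 0 < κ' ∧ ∀ (I : Type) (_ : Fintype I) (a b : I → ℝ), (∀ i, 0 ≤ a i) →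
      (∀ i, 0 ≤ b i) → ∑ i, a i ^ p ≤ p → ∑ i, b i ^ q ≤ q → κ ≤ ∑ i, a i * b i →
      κ' ≤ ∑ i, a i ^ (p / 2) * b i ^ (q / 2) := by
  have hp := hpq.pos
  have hq := hpq.symm.pos
  obtain ⟨l, hl, h1⟩ := young_mix hpq (δ := κ / (2 * (p + q))) (by positivity)
  refine ⟨κ / (2 * l), by positivity, fun I _ a b ha hb h2 h3 h4 => ?_⟩
  have h5 : ∑ i, a i * b i ≤ l * ∑ i, (a i ^ (p / 2) * b i ^ (q / 2)) +
      κ / (2 * (p + q)) * (∑ i, a i ^ p + ∑ i, b i ^ q) := by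
    rw [← Finset.sum_add_distrib, Finset.mul_sum, Finset.mul_sum, ← Finset.sum_add_distrib]
    exact Finset.sum_le_sum fun i _ => h1 _ _ (ha i) (hb i)
  have h6 : κ / (2 * (p + q)) * (∑ i, a i ^ p + ∑ i, b i ^ q) ≤ κ / (2 * (p + q)) * (p + q) :=
    mul_le_mul_of_nonneg_left (by linarith) (by positivity)
  have h7 : κ / (2 * (p + q)) * (p + q) = κ / 2 := by
    field_simp
  rw [div_le_iff₀ (by positivity)]
  linarith

/-! ### Vectors of minimal norm -/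

variable {H : Type*} [NormedAddCommGroup H] [InnerProductSpace ℝ H]

lemma min_norm_ineq {w w' : H} {C' : Set H} (hC' : Convex ℝ C') (hw : w ∈ C') (hw' : w' ∈ C')
    (hmin : ∀ v ∈ C', ‖w'‖ ≤ ‖v‖) : ‖w - w'‖ ^ 2 ≤ 2 * ‖w‖ ^ 2 - 2 * ‖w'‖ ^ 2 := by
  have h1 : (1 / 2 : ℝ) • w + (1 / 2 : ℝ) • w' ∈ C' :=
    hC' hw hw' (by norm_num) (by norm_num) (by norm_num)
  have h2 := hmin _ h1
  rw [← smul_add, norm_smul, Real.norm_of_nonneg (by norm_num : (0:ℝ) ≤ 1 / 2)] at h2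
  have h3 := parallelogram_law_with_norm ℝ w w'
  have h4 : (2 * ‖w'‖) ^ 2 ≤ ‖w + w'‖ ^ 2 := by
    apply pow_le_pow_left₀ (by positivity)
    linarith
  nlinarith

/-- Averaging over scales of the vectors of minimal norm in the convex hulls of the balls. -/
theorem energy {ι : Type*} [Finite ι] (d : ι → ι → ℝ) (hd0 : ∀ x, d x x = 0)
    (hdc : ∀ x y, d x y = d y x) (hdt : ∀ x y z, d x z ≤ d x y + d y z)
    (u v : ι → H) {κ B ρ : ℝ} (hκ : 0 < κ) (hB : 0 < B) (hρ : 0 ≤ ρ)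
    (hu : ∀ x, ‖u x‖ ^ 2 ≤ B) (hv : ∀ x, ‖v x‖ ^ 2 ≤ B) (K : ℕ)
    (huv : ∀ x y, d x y ≤ K * ρ → κ ≤ inner ℝ (u x) (v y)) :
    ∃ w : ℕ → ι → H, (∀ (k : ℕ) (x : ι), w k x ∈ convexHull ℝ (u '' {z | d z x ≤ (k : ℝ) * ρ})) ∧
      (∀ k x, ‖w k x‖ ^ 2 ≤ B) ∧
      (∀ k x, k ≤ K → κ ^ 2 / B ≤ ‖w k x‖ ^ 2) ∧
      (∀ x y, d x y ≤ ρ → ∑ k ∈ range K, ‖w k x - w k y‖ ^ 2 ≤ 8 * B) := by
  have hne : ∀ (k : ℕ) (x : ι), (convexHull ℝ (u '' {z | d z x ≤ k * ρ})).Nonempty := by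
    intro k x
    refine ⟨u x, subset_convexHull ℝ _ ⟨x, ?_, rfl⟩⟩
    change d x x ≤ k * ρ
    rw [hd0]
    positivity
  have hex : ∀ (k : ℕ) (x : ι), ∃ w ∈ convexHull ℝ (u '' {z | d z x ≤ k * ρ}),
      ∀ v ∈ convexHull ℝ (u '' {z | d z x ≤ k * ρ}), ‖w‖ ≤ ‖v‖ := by
    intro k x
    have hc : IsCompact (convexHull ℝ (u '' {z | d z x ≤ k * ρ})) :=
      (Set.toFinite _).isCompact_convexHull ℝ
    obtain ⟨w, hw, hw2⟩ := hc.exists_isMinOn (hne k x) continuous_norm.continuousOn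
    exact ⟨w, hw, fun v hv => hw2 hv⟩
  choose w hw hmin using hex
  have hself : ∀ (k : ℕ) (x : ι), u x ∈ convexHull ℝ (u '' {z | d z x ≤ k * ρ}) := by
    intro k x
    refine subset_convexHull ℝ _ ⟨x, ?_, rfl⟩
    change d x x ≤ k * ρ
    rw [hd0]
    positivity
  have hstep : ∀ (k : ℕ) (x y : ι), d x y ≤ ρ →
      convexHull ℝ (u '' {z | d z x ≤ k * ρ}) ⊆ convexHull ℝ (u '' {z | d z y ≤ (k + 1 : ℕ) * ρ}) := by
    intro k x y hxy
    refine convexHull_mono (Set.image_mono fun z hz => ?_)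
    change d z y ≤ _
    change d z x ≤ _ at hz
    have := hdt z x y
    push_cast
    linarith
  refine ⟨w, hw, fun k x => ?_, fun k x hk => ?_, fun x y hxy => ?_⟩
  · refine le_trans ?_ (hu x)
    exact pow_le_pow_left₀ (norm_nonneg _) (hmin k x _ (hself k x)) 2
  · have h1 : κ ≤ inner ℝ (w k x) (v x) := by
      have h2 : convexHull ℝ (u '' {z | d z x ≤ k * ρ}) ⊆ {a : H | κ ≤ inner ℝ a (v x)} := by
        refine convexHull_min ?_ ?_
        · rintro _ ⟨z, hz, rfl⟩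
          refine huv z x (le_trans hz ?_)
          exact mul_le_mul_of_nonneg_right (by exact_mod_cast hk) hρ
        · intro a ha b hb s t hs ht hst
          change κ ≤ inner ℝ (s • a + t • b) (v x)
          rw [inner_add_left, real_inner_smul_left, real_inner_smul_left]
          have e1 : κ = s * κ + t * κ := by rw [← add_mul, hst, one_mul]
          rw [e1]
          exact add_le_add (mul_le_mul_of_nonneg_left ha hs) (mul_le_mul_of_nonneg_left hb ht)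
      exact h2 (hw k x)
    have h2 : κ ≤ ‖w k x‖ * ‖v x‖ := h1.trans (real_inner_le_norm _ _)
    have h3 : κ ^ 2 ≤ ‖w k x‖ ^ 2 * ‖v x‖ ^ 2 := by
      rw [← mul_pow]
      exact pow_le_pow_left₀ hκ.le h2 2
    rw [div_le_iff₀ hB]
    refine h3.trans ?_
    exact mul_le_mul_of_nonneg_left (hv x) (by positivity)
  · have key : ∀ k : ℕ, ‖w k x - w k y‖ ^ 2 ≤ 4 * (‖w k x‖ ^ 2 + ‖w k y‖ ^ 2) -
        4 * (‖w (k + 1) x‖ ^ 2 + ‖w (k + 1) y‖ ^ 2) := by
      intro k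
      have hxx : d x x ≤ ρ := by rw [hd0]; exact hρ
      have hyy : d y y ≤ ρ := by rw [hd0]; exact hρ
      have hyx : d y x ≤ ρ := by rw [hdc]; exact hxy
      have a1 := min_norm_ineq (convex_convexHull ℝ _) (hstep k x y hxy (hw k x)) (hw (k + 1) y)
        (hmin (k + 1) y)
      have a2 := min_norm_ineq (convex_convexHull ℝ _) (hstep k y y hyy (hw k y)) (hw (k + 1) y)
        (hmin (k + 1) y)
      have a3 := min_norm_ineq (convex_convexHull ℝ _) (hstep k x x hxx (hw k x)) (hw (k + 1) x)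
        (hmin (k + 1) x)
      have a4 := min_norm_ineq (convex_convexHull ℝ _) (hstep k y x hyx (hw k y)) (hw (k + 1) x)
        (hmin (k + 1) x)
      have b1 : ‖w k x - w k y‖ ^ 2 ≤ 2 * ‖w k x - w (k + 1) y‖ ^ 2 + 2 * ‖w k y - w (k + 1) y‖ ^ 2 := by
        have e : w k x - w k y = (w k x - w (k + 1) y) - (w k y - w (k + 1) y) := by abel
        rw [e]
        have := parallelogram_law_with_norm ℝ (w k x - w (k + 1) y) (w k y - w (k + 1) y)
        have h0 := sq_nonneg ‖(w k x - w (k + 1) y) + (w k y - w (k + 1) y)‖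
        nlinarith
      have b2 : ‖w k x - w k y‖ ^ 2 ≤ 2 * ‖w k x - w (k + 1) x‖ ^ 2 + 2 * ‖w k y - w (k + 1) x‖ ^ 2 := by
        have e : w k x - w k y = (w k x - w (k + 1) x) - (w k y - w (k + 1) x) := by abel
        rw [e]
        have := parallelogram_law_with_norm ℝ (w k x - w (k + 1) x) (w k y - w (k + 1) x)
        have h0 := sq_nonneg ‖(w k x - w (k + 1) x) + (w k y - w (k + 1) x)‖
        nlinarith
      linarith
    refine (Finset.sum_le_sum fun k _ => key k).trans ?_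
    rw [Finset.sum_range_sub' (fun k => 4 * (‖w k x‖ ^ 2 + ‖w k y‖ ^ 2)) K]
    have c1 : ‖w 0 x‖ ^ 2 ≤ B := by
      refine le_trans ?_ (hu x)
      exact pow_le_pow_left₀ (norm_nonneg _) (hmin 0 x _ (hself 0 x)) 2
    have c2 : ‖w 0 y‖ ^ 2 ≤ B := by
      refine le_trans ?_ (hu y)
      exact pow_le_pow_left₀ (norm_nonneg _) (hmin 0 y _ (hself 0 y)) 2
    have c3 : 0 ≤ 4 * (‖w K x‖ ^ 2 + ‖w K y‖ ^ 2) := by positivity
    linarith

end Pool.Agent.J6H38.ONL
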