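import Pool.Agent.J6H38.ONL.Dual
import Pool.Agent.J6H38.ONL.Mix
import Pool.Agent.J6H38.ONL.Discretize

/-!
# The finite step: local kernels give the sets of property A
-/

namespace Pool.Agent.J6H38.ONL

open Finset

theorem finite_step {p q : ℝ} (hpq : p.HolderConjugate q) {κ ε : ℝ} (hκ : 0 < κ) (hε : 0 < ε) :
    ∃ K : ℕ, ∀ (S0 ρ : ℝ) (N : ℕ), 0 ≤ ρ → ∃ M' : ℕ, ∀ (ι : Type) [Fintype ι] [DecidableEq ι]
      (d : ι → ι → ℝ), (∀ x, d x x = 0) → (∀ x y, d x y = d y x) →
      (∀ x y z, d x z ≤ d x y + d y z) →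
      (∀ x, (univ.filter (fun z => d z x ≤ S0 + K * ρ)).card ≤ N) →
      ((fun _ => κ, fun _ => 1) : (ι × ι → ℝ) × (ι → ℝ)) ∈
        coneC p q (fun x y => d x y ≤ K * ρ) (fun F => ∀ a ∈ F, ∀ b ∈ F, d a b ≤ S0) →
      ∃ A : ι → Finset (ι × ℕ), (∀ x, (x, 0) ∈ A x) ∧
        (∀ x, ∀ w ∈ A x, (w.1 = x ∨ d w.1 x ≤ S0 + K * ρ) ∧ w.2 ≤ M') ∧
        ∀ x y, d x y ≤ ρ → ((symmDiff (A x) (A y)).card : ℝ) < ε * ((A x ∩ A y).card : ℝ) := by
  have hp := hpq.pos
  have hq := hpq.symm.pos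
  obtain ⟨κ', hκ', hlow⟩ := hilbert_lower hpq hκ
  set B : ℝ := p + q with hB
  have hB0 : 0 < B := by positivity
  set s : ℝ := ε * κ' ^ 2 / (8 * B ^ 2 * (1 + ε)) with hs
  have hs0 : 0 < s := by positivity
  obtain ⟨K, hK⟩ := exists_nat_gt (16 * B ^ 2 * (1 + ε) / (s * ε * κ' ^ 2))
  have hK0 : (0 : ℝ) < K := lt_of_le_of_lt (by positivity) hK
  refine ⟨K, fun S0 ρ N hρ => ?_⟩
  set m0 : ℝ := K * (κ' ^ 2 / B) with hm0
  set E1 : ℝ := 4 * B / s + 2 * s * B * K with hE1
  have hgap : 0 < ε * m0 - (1 + ε) * E1 := by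
    have a1 : (1 + ε) * (2 * s * B * K) = ε * m0 / 4 := by
      rw [hs, hm0]
      field_simp
      ring
    have a2 : (1 + ε) * (4 * B / s) < ε * m0 / 4 := by
      rw [div_lt_iff₀ (by positivity)] at hK
      rw [hm0, mul_div_assoc', div_lt_iff₀ hs0]
      have : 16 * B ^ 2 * (1 + ε) / (4 * B) < K * (s * ε * κ' ^ 2) / (4 * B) :=
        div_lt_div_of_pos_right hK (by positivity)
      have e1 : 16 * B ^ 2 * (1 + ε) / (4 * B) = (1 + ε) * (4 * B) := by
        field_simp
        ring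
      have e2 : K * (s * ε * κ' ^ 2) / (4 * B) = ε * (K * (κ' ^ 2 / B)) / 4 * s := by
        field_simp
      rw [e1, e2] at this
      exact this
    have a3 : 0 < ε * m0 := by positivity
    rw [hE1, mul_add]
    linarith
  obtain ⟨M, hM⟩ := exists_nat_gt (((1 + ε) * (2 * N + 2) + ε * N) / (ε * m0 - (1 + ε) * E1))
  rw [div_lt_iff₀ hgap] at hM
  refine ⟨⌈(M : ℝ) * (K * B)⌉₊, ?_⟩
  intro ι _ _ d hd0 hdc hdt hball hcone
  rcases isEmpty_or_nonempty ι with hι | hι
  · exact ⟨fun x => (hι.false x).elim, fun x => (hι.false x).elim, fun x => (hι.false x).elim,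
      fun x => (hι.false x).elim⟩
  obtain ⟨I, hI, ξ, η, h1, h2, h3, h4, h5⟩ := hcone
  simp only at h4 h5
  choose F hF hF2 using h3
  -- the Hilbert space vectors
  set u : ι → EuclideanSpace ℝ I := fun x => WithLp.toLp 2 (fun i => ξ i x ^ (p / 2)) with hu
  set v : ι → EuclideanSpace ℝ I := fun x => WithLp.toLp 2 (fun i => η i x ^ (q / 2)) with hv
  have hpow : ∀ a r : ℝ, 0 ≤ a → (a ^ (r / 2)) ^ 2 = a ^ r := by
    intro a r ha
    rw [← Real.rpow_natCast, ← Real.rpow_mul ha]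
    congr 1
    push_cast
    ring
  have hξ : ∀ x, ∑ i, ξ i x ^ p ≤ p := by
    intro x
    have a1 : ∑ i, ξ i x ^ p / p ≤ 1 := by
      refine le_trans (Finset.sum_le_sum fun i _ => ?_) (h5 x)
      have : 0 ≤ η i x ^ q / q := div_nonneg (Real.rpow_nonneg (h2 i x) _) hq.le
      linarith
    rw [← Finset.sum_div, div_le_one hp] at a1
    exact a1
  have hη : ∀ x, ∑ i, η i x ^ q ≤ q := by
    intro x
    have a1 : ∑ i, η i x ^ q / q ≤ 1 := by
      refine le_trans (Finset.sum_le_sum fun i _ => ?_) (h5 x)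
      have : 0 ≤ ξ i x ^ p / p := div_nonneg (Real.rpow_nonneg (h1 i x) _) hp.le
      linarith
    rw [← Finset.sum_div, div_le_one hq] at a1
    exact a1
  have hun : ∀ x, ‖u x‖ ^ 2 ≤ B := by
    intro x
    rw [EuclideanSpace.norm_sq_eq]
    have : ∑ i, ‖u x i‖ ^ 2 = ∑ i, ξ i x ^ p := by
      refine Finset.sum_congr rfl fun i _ => ?_
      rw [Real.norm_eq_abs, sq_abs]
      exact hpow _ _ (h1 i x)
    rw [this]
    have := hξ x
    linarith
  have hvn : ∀ x, ‖v x‖ ^ 2 ≤ B := by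
    intro x
    rw [EuclideanSpace.norm_sq_eq]
    have : ∑ i, ‖v x i‖ ^ 2 = ∑ i, η i x ^ q := by
      refine Finset.sum_congr rfl fun i _ => ?_
      rw [Real.norm_eq_abs, sq_abs]
      exact hpow _ _ (h2 i x)
    rw [this]
    have := hη x
    linarith
  have huv : ∀ x y, d x y ≤ K * ρ → κ' ≤ inner ℝ (u x) (v y) := by
    intro x y hxy
    have a1 := hlow I hI (fun i => ξ i x) (fun i => η i y) (fun i => h1 i x) (fun i => h2 i y)
      (hξ x) (hη y) (h4 x y hxy)
    refine a1.trans (le_of_eq ?_)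
    rw [PiLp.inner_apply]
    refine Finset.sum_congr rfl fun i _ => ?_
    simp only [hu, hv, RCLike.inner_apply, conj_trivial]
    ring
  obtain ⟨w, hw, hwB, hwl, hwd⟩ := energy d hd0 hdc hdt u v hκ' hB0 hρ hun hvn K huv
  -- the base points
  have hbp : ∀ i : I, ∃ b : ι, (F i).Nonempty → b ∈ F i := by
    intro i
    by_cases hne : (F i).Nonempty
    · exact ⟨hne.some, fun h => h.some_mem⟩
    · exact ⟨Classical.arbitrary ι, fun h => (hne h).elim⟩
  choose bpt hbpt using hbp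
  set ψ : ι → ι → ℝ := fun x z => ∑ k ∈ range K, ∑ i, if bpt i = z then (w k x i) ^ 2 else 0 with hψ
  have hψ0 : ∀ x z, 0 ≤ ψ x z := by
    intro x z
    refine Finset.sum_nonneg fun k _ => Finset.sum_nonneg fun i _ => ?_
    split_ifs <;> positivity
  have hsupp : ∀ x z, ψ x z ≠ 0 → z ∈ univ.filter (fun z => d z x ≤ S0 + K * ρ) := by
    intro x z hne
    rw [mem_filter]
    refine ⟨mem_univ _, ?_⟩
    obtain ⟨k, hk, hne1⟩ := Finset.exists_ne_zero_of_sum_ne_zero hne
    obtain ⟨i, -, hne2⟩ := Finset.exists_ne_zero_of_sum_ne_zero hne1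
    have hb : bpt i = z := by
      by_contra hcon
      rw [if_neg hcon] at hne2
      exact hne2 rfl
    rw [if_pos hb] at hne2
    have hwi : w k x i ≠ 0 := fun hcon => hne2 (by rw [hcon]; norm_num)
    have hex : ∃ z', d z' x ≤ k * ρ ∧ u z' i ≠ 0 := by
      by_contra hcon
      push Not at hcon
      have hsub : convexHull ℝ (u '' {z | d z x ≤ k * ρ}) ⊆ {a : EuclideanSpace ℝ I | a i = 0} := by
        refine convexHull_min ?_ ?_
        · rintro _ ⟨z', hz', rfl⟩
          exact hcon z' hz'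
        · intro a ha b hb s t _ _ _
          change (s • a + t • b) i = 0
          change a i = 0 at ha
          change b i = 0 at hb
          simp [ha, hb]
      exact hwi (hsub (hw k x))
    obtain ⟨z', hz', hz2⟩ := hex
    have hz3 : z' ∈ F i := by
      by_contra hcon
      apply hz2
      have := (hF2 i z' hcon).1
      simp only [hu]
      rw [this, Real.zero_rpow (by positivity)]
    have hz4 := hF i (bpt i) (hbpt i ⟨z', hz3⟩) z' hz3
    rw [hb] at hz4
    have hk2 : (k : ℝ) * ρ ≤ K * ρ := by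
      refine mul_le_mul_of_nonneg_right ?_ hρ
      exact_mod_cast (mem_range.mp hk).le
    have := hdt z z' x
    linarith
  have hswap : ∀ g : ℕ → I → ℝ, ∑ z, ∑ k ∈ range K, ∑ i, (if bpt i = z then g k i else 0) =
      ∑ k ∈ range K, ∑ i, g k i := by
    intro g
    rw [Finset.sum_comm]
    refine Finset.sum_congr rfl fun k _ => ?_
    rw [Finset.sum_comm]
    refine Finset.sum_congr rfl fun i _ => ?_
    simp
  have hnsq : ∀ a : EuclideanSpace ℝ I, ∑ i, (a i) ^ 2 = ‖a‖ ^ 2 := by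
    intro a
    rw [EuclideanSpace.norm_sq_eq]
    refine Finset.sum_congr rfl fun i _ => ?_
    rw [Real.norm_eq_abs, sq_abs]
  have htot : ∀ x, ∑ z, ψ x z = ∑ k ∈ range K, ‖w k x‖ ^ 2 := by
    intro x
    rw [hψ]
    dsimp only
    rw [hswap]
    exact Finset.sum_congr rfl fun k _ => hnsq _
  have hm : ∀ x, m0 ≤ ∑ z, ψ x z := by
    intro x
    rw [htot, hm0]
    have : ∑ _k ∈ range K, κ' ^ 2 / B ≤ ∑ k ∈ range K, ‖w k x‖ ^ 2 :=
      Finset.sum_le_sum fun k hk => hwl k x (mem_range.mp hk).le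
    rwa [Finset.sum_const, card_range, nsmul_eq_mul] at this
  have hup : ∀ x z, ψ x z ≤ K * B := by
    intro x z
    have a1 : ψ x z ≤ ∑ z, ψ x z := Finset.single_le_sum (f := fun z => ψ x z)
      (fun z _ => hψ0 x z) (mem_univ z)
    rw [htot] at a1
    have : ∑ k ∈ range K, ‖w k x‖ ^ 2 ≤ ∑ _k ∈ range K, B :=
      Finset.sum_le_sum fun k hk => hwB k x
    rw [Finset.sum_const, card_range, nsmul_eq_mul] at this
    linarith
  obtain ⟨A, hA1, hA2, hA3⟩ := discretize ψ hψ0 _ N hsupp hball hε hm M hM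
  refine ⟨A, hA1, fun x a ha => ?_, fun x y hxy => hA3 x y ?_⟩
  · rcases hA2 x a ha with h | ⟨h, h'⟩
    · rw [h]
      exact ⟨Or.inl rfl, Nat.zero_le _⟩
    · refine ⟨Or.inr (mem_filter.mp h).2, ?_⟩
      have a1 : (M : ℝ) * ψ x a.1 ≤ M * (K * B) :=
        mul_le_mul_of_nonneg_left (hup _ _) (Nat.cast_nonneg _)
      have a2 : (a.2 : ℝ) ≤ ⌈(M : ℝ) * (K * B)⌉₊ := (h'.trans a1).trans (Nat.le_ceil _)
      exact_mod_cast a2
  · -- the variation
    have b1 : ∀ z, |ψ x z - ψ y z| ≤ ∑ k ∈ range K, ∑ i, (if bpt i = z then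
        (1 / (2 * s) * (w k x i - w k y i) ^ 2 + s / 2 * (w k x i + w k y i) ^ 2) else 0) := by
      intro z
      rw [hψ]
      dsimp only
      rw [← Finset.sum_sub_distrib]
      refine (Finset.abs_sum_le_sum_abs _ _).trans (Finset.sum_le_sum fun k _ => ?_)
      rw [← Finset.sum_sub_distrib]
      refine (Finset.abs_sum_le_sum_abs _ _).trans (Finset.sum_le_sum fun i _ => ?_)
      split_ifs with hb
      · have e1 : w k x i ^ 2 - w k y i ^ 2 = (w k x i - w k y i) * (w k x i + w k y i) := by ring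
        rw [e1, abs_mul]
        have e2 : |w k x i - w k y i| ^ 2 = (w k x i - w k y i) ^ 2 := sq_abs _
        have e3 : |w k x i + w k y i| ^ 2 = (w k x i + w k y i) ^ 2 := sq_abs _
        rw [← e2, ← e3]
        have e4 := sq_nonneg (|w k x i - w k y i| - s * |w k x i + w k y i|)
        have e5 : 0 ≤ 1 / (2 * s) * (|w k x i - w k y i| - s * |w k x i + w k y i|) ^ 2 := by
          positivity
        have e6 : 1 / (2 * s) * (|w k x i - w k y i| - s * |w k x i + w k y i|) ^ 2 =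
            1 / (2 * s) * |w k x i - w k y i| ^ 2 + s / 2 * |w k x i + w k y i| ^ 2 -
            |w k x i - w k y i| * |w k x i + w k y i| := by
          field_simp
          ring
        linarith
      · simp
    refine (Finset.sum_le_sum fun z _ => b1 z).trans ?_
    rw [hswap (fun k i => 1 / (2 * s) * (w k x i - w k y i) ^ 2 + s / 2 * (w k x i + w k y i) ^ 2)]
    have b2 : ∀ k, ∑ i, (1 / (2 * s) * (w k x i - w k y i) ^ 2 + s / 2 * (w k x i + w k y i) ^ 2) ≤
        1 / (2 * s) * ‖w k x - w k y‖ ^ 2 + s / 2 * (4 * B) := by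
      intro k
      rw [Finset.sum_add_distrib, ← Finset.mul_sum, ← Finset.mul_sum]
      have e1 : ∑ i, (w k x i - w k y i) ^ 2 = ‖w k x - w k y‖ ^ 2 := by
        rw [← hnsq]
        rfl
      have e2 : ∑ i, (w k x i + w k y i) ^ 2 = ‖w k x + w k y‖ ^ 2 := by
        rw [← hnsq]
        rfl
      rw [e1, e2]
      have e3 : ‖w k x + w k y‖ ^ 2 ≤ 4 * B := by
        have f1 := parallelogram_law_with_norm ℝ (w k x) (w k y)
        have f2 := hwB k x
        have f3 := hwB k y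
        have f4 := sq_nonneg ‖w k x - w k y‖
        nlinarith
      have e4 : s / 2 * ‖w k x + w k y‖ ^ 2 ≤ s / 2 * (4 * B) :=
        mul_le_mul_of_nonneg_left e3 (by positivity)
      linarith
    refine (Finset.sum_le_sum fun k _ => b2 k).trans ?_
    rw [Finset.sum_add_distrib, ← Finset.mul_sum, Finset.sum_const, card_range, nsmul_eq_mul, hE1]
    have b3 : 1 / (2 * s) * ∑ k ∈ range K, ‖w k x - w k y‖ ^ 2 ≤ 1 / (2 * s) * (8 * B) :=
      mul_le_mul_of_nonneg_left (hwd x y hxy) (by positivity)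
    have b4 : 1 / (2 * s) * (8 * B) = 4 * B / s := by
      field_simp
      ring
    linarith

end Pool.Agent.J6H38.ONL
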