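import Pool.Agent.R302.RoeD

/-!
# The box space `PX` of finite quotients of the free group does not have Yu's property A
-/

namespace Pool.Agent.J6H38.ONL

open Pool.Agent.R302.Roe

/-- `PX` fails property A. -/
theorem not_propA : ¬ (∀ R : ℝ, 0 < R → ∀ ε : ℝ, 0 < ε →
        ∃ S : ℝ, ∃ A : PX → Set (PX × ℕ),
          (∀ x, (A x).Finite) ∧ (∀ x, (x, 0) ∈ A x) ∧
          (∀ x, ∀ w ∈ A x, dist w.1 x ≤ S) ∧
          ∀ x y, dist x y < R →
            ((symmDiff (A x) (A y)).ncard : ℝ) < ε * ((A x ∩ A y).ncard : ℝ)) := by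
  classical
  intro h
  obtain ⟨S, A, hfin, h0, hS, hA⟩ := h 2 (by norm_num) (1 / 30) (by norm_num)
  set s : ℕ := ⌈S⌉₊ with hs
  set m : ℕ := s + 2 with hm
  set p : ℕ × ℕ := (s + 1, m) with hp
  let pt : QQ m → PX := fun q => ⟨p, q⟩
  have pt_inj : Function.Injective pt := by
    intro a b hab
    simp only [pt, PX.mk.injEq, heq_eq_eq, true_and] at hab
    exact hab
  let F : QQ m → Finset (PX × ℕ) := fun q => (hfin (pt q)).toFinset
  have hF : ∀ q w, w ∈ F q ↔ w ∈ A (pt q) := fun q w => by simp [F]
  have hblock : ∀ q, ∀ w ∈ F q, ∃ q', w.1 = pt q' ∧ len m (q⁻¹ * q') ≤ s := by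
    intro q w hw
    rw [hF] at hw
    have h1 := hS _ _ hw
    rw [dist_comm, dist_def] at h1
    have h2 : dN (pt q) w.1 ≤ s := by
      have : (dN (pt q) w.1 : ℝ) ≤ s := h1.trans (Nat.le_ceil S)
      exact_mod_cast this
    have h3 : (pt q).p = w.1.p := same_block (by
      change dN (pt q) w.1 < s + 1
      omega)
    obtain ⟨⟨p', q'⟩, k⟩ := w
    change p = p' at h3
    subst h3
    refine ⟨q', rfl, ?_⟩
    rw [← dN_same p q q']
    exact h2
  let N : QQ m → QQ m → ℕ := fun q q' => ((F q).filter (fun w => w.1 = pt q')).card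
  have hN : ∀ q, ∑ q', N q q' = (F q).card := by
    intro q
    rw [Finset.card_eq_sum_card_fiberwise (f := fun w : PX × ℕ => w.1)
      (t := Finset.univ.image pt)]
    · rw [Finset.sum_image (fun a _ b _ hab => pt_inj hab)]
    · intro w hw
      obtain ⟨q', h1, -⟩ := hblock q w hw
      simp only [Finset.coe_image, Finset.coe_univ, Set.image_univ, Set.mem_range]
      exact ⟨q', h1.symm⟩
  have hcard : ∀ q, 0 < (F q).card := fun q =>
    Finset.card_pos.mpr ⟨(pt q, 0), (hF _ _).mpr (h0 _)⟩
  have hsymm : ∀ q q1, ∑ q', |(N q1 q' : ℝ) - N q q'| ≤ ((symmDiff (F q1) (F q)).card : ℝ) := by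
    intro q q1
    have h1 : ∀ q', |(N q1 q' : ℝ) - N q q'| ≤
        (((symmDiff (F q1) (F q)).filter (fun w => w.1 = pt q')).card : ℝ) := by
      intro q'
      have e1 : N q1 q' ≤ N q q' + ((symmDiff (F q1) (F q)).filter (fun w => w.1 = pt q')).card := by
        refine le_trans (Finset.card_le_card ?_) (Finset.card_union_le _ _)
        intro w hw
        simp only [Finset.mem_filter, Finset.mem_union, Finset.mem_symmDiff] at hw ⊢
        tauto
      have e2 : N q q' ≤ N q1 q' + ((symmDiff (F q1) (F q)).filter (fun w => w.1 = pt q')).card := by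
        refine le_trans (Finset.card_le_card ?_) (Finset.card_union_le _ _)
        intro w hw
        simp only [Finset.mem_filter, Finset.mem_union, Finset.mem_symmDiff] at hw ⊢
        tauto
      have e1' : (N q1 q' : ℝ) ≤ N q q' +
          (((symmDiff (F q1) (F q)).filter (fun w => w.1 = pt q')).card : ℝ) := by exact_mod_cast e1
      have e2' : (N q q' : ℝ) ≤ N q1 q' +
          (((symmDiff (F q1) (F q)).filter (fun w => w.1 = pt q')).card : ℝ) := by exact_mod_cast e2
      rw [abs_le]
      constructor <;> linarith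
    refine (Finset.sum_le_sum fun q' _ => h1 q').trans ?_
    rw [← Nat.cast_sum]
    have h2 : ∑ q' : QQ m, ((symmDiff (F q1) (F q)).filter (fun w => w.1 = pt q')).card =
        (symmDiff (F q1) (F q)).card := by
      rw [Finset.card_eq_sum_card_fiberwise (s := symmDiff (F q1) (F q))
        (f := fun w : PX × ℕ => w.1) (t := Finset.univ.image pt)]
      · rw [Finset.sum_image (fun a _ b _ hab => pt_inj hab)]
      · intro w hw
        simp only [Finset.coe_image, Finset.coe_univ, Set.image_univ, Set.mem_range]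
        rw [Finset.mem_coe, Finset.mem_symmDiff] at hw
        rcases hw with hw | hw
        · obtain ⟨q', h1, -⟩ := hblock q1 w hw.1
          exact ⟨q', h1.symm⟩
        · obtain ⟨q', h1, -⟩ := hblock q w hw.1
          exact ⟨q', h1.symm⟩
    rw [h2]
  refine avg_false s m le_rfl (fun q q' => (N q q' : ℝ) / (F q).card) (fun q q' => by positivity)
    (fun q => ?_) (fun q q1 hq => ?_) (fun q q' hne => ?_)
  · rw [← Finset.sum_div, ← Nat.cast_sum, hN, div_self, sub_self, abs_zero]
    · norm_num
    · have := hcard q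
      positivity
  · have hd : dist (pt q1) (pt q) < 2 := by
      rw [dist_comm, dist_def]
      change ((dN (⟨p, q⟩ : PX) ⟨p, q1⟩ : ℕ) : ℝ) < 2
      rw [dN_same]
      have : (len m (q⁻¹ * q1) : ℝ) ≤ 1 := by exact_mod_cast hq
      change ((len m (q⁻¹ * q1) : ℕ) : ℝ) < 2
      linarith
    have h1 := hA _ _ hd
    have e1 : symmDiff (A (pt q1)) (A (pt q)) = ((symmDiff (F q1) (F q) : Finset _) : Set _) := by
      ext w
      simp only [Set.mem_symmDiff, Finset.coe_symmDiff, Finset.mem_coe, hF]
    have e2 : A (pt q1) ∩ A (pt q) = ((F q1 ∩ F q : Finset _) : Set _) := by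
      ext w
      simp only [Set.mem_inter_iff, Finset.coe_inter, Finset.mem_coe, hF]
    rw [e1, e2, Set.ncard_coe_finset, Set.ncard_coe_finset] at h1
    have h2 : ((F q1 ∩ F q).card : ℝ) ≤ (F q1).card := by
      exact_mod_cast Finset.card_le_card Finset.inter_subset_left
    have hc1 : (0 : ℝ) < (F q1).card := by exact_mod_cast hcard q1
    have hc : (0 : ℝ) < (F q).card := by exact_mod_cast hcard q
    have hdiff : |((F q).card : ℝ) - (F q1).card| ≤ ((symmDiff (F q1) (F q)).card : ℝ) := by
      rw [← hN q, ← hN q1, Nat.cast_sum, Nat.cast_sum, ← Finset.sum_sub_distrib]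
      refine (Finset.abs_sum_le_sum_abs _ _).trans ?_
      refine le_trans (le_of_eq ?_) (hsymm q q1)
      exact Finset.sum_congr rfl fun _ _ => abs_sub_comm _ _
    have hterm : ∀ q', |(N q1 q' : ℝ) / (F q1).card - (N q q' : ℝ) / (F q).card| ≤
        |(N q1 q' : ℝ) - N q q'| / (F q1).card +
          (N q q' : ℝ) / (F q).card * (|((F q).card : ℝ) - (F q1).card| / (F q1).card) := by
      intro q'
      have e : (N q1 q' : ℝ) / (F q1).card - (N q q' : ℝ) / (F q).card =
          ((N q1 q' : ℝ) - N q q') / (F q1).card +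
          (N q q' : ℝ) / (F q).card * ((((F q).card : ℝ) - (F q1).card) / (F q1).card) := by
        field_simp
        ring
      rw [e]
      refine (abs_add_le _ _).trans (le_of_eq ?_)
      rw [abs_div, abs_mul, abs_div, abs_div, abs_of_pos hc1, abs_of_pos hc,
        abs_of_nonneg (show (0 : ℝ) ≤ (N q q' : ℝ) by positivity)]
    refine lt_of_le_of_lt (Finset.sum_le_sum fun q' _ => hterm q') ?_
    rw [Finset.sum_add_distrib, ← Finset.sum_div, ← Finset.sum_mul, ← Finset.sum_div,
      ← Nat.cast_sum, hN, div_self hc.ne', one_mul, ← add_div, div_lt_iff₀ hc1]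
    have := hsymm q q1
    linarith
  · have hne2 : N q q' ≠ 0 := by
      intro h1
      apply hne
      rw [h1]
      simp
    have h1 : 0 < N q q' := Nat.pos_of_ne_zero hne2
    obtain ⟨w, hw⟩ := Finset.card_pos.mp h1
    rw [Finset.mem_filter] at hw
    obtain ⟨q'', h2, h3⟩ := hblock q w hw.1
    rw [hw.2] at h2
    rw [pt_inj h2]
    exact h3

end Pool.Agent.J6H38.ONL
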