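import Pool.Agent.J6H38.ONL.OneCase
import Pool.Agent.J6H38.ONL.NotA

/-!
# Every metric space of bounded geometry has the `1`-operator norm localization property
-/

namespace Pool.Agent.J6H38.ONL

open MeasureTheory
open scoped ENNReal

/-- A metric space all of whose balls are finite is countable. -/
lemma countable_of_balls {X : Type*} [MetricSpace X]
    (h : ∀ R : ℝ, 0 < R → ∃ N : ℕ, ∀ x : X, (Metric.ball x R).Finite ∧ (Metric.ball x R).ncard ≤ N) :
    Countable X := by
  rcases isEmpty_or_nonempty X with hX | ⟨⟨x0⟩⟩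
  · infer_instance
  · have h1 : (⋃ n : ℕ, Metric.ball x0 ((n : ℝ) + 1)) = Set.univ := by
      ext y
      simp only [Set.mem_iUnion, Metric.mem_ball, Set.mem_univ, iff_true]
      obtain ⟨n, hn⟩ := exists_nat_gt (dist y x0)
      exact ⟨n, by linarith⟩
    rw [← Set.countable_univ_iff, ← h1]
    refine Set.countable_iUnion fun n => ?_
    obtain ⟨N, hN⟩ := h ((n : ℝ) + 1) (by positivity)
    exact (hN x0).1.countable

/-- The `1`-operator norm localization property, with constant `1/2` and with single points as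
supports. -/
lemma one_onl {X : Type*} [MetricSpace X] [MeasurableSpace X] [BorelSpace X]
    {E : Type*} [NormedAddCommGroup E] [NormedSpace ℝ E] [Nontrivial E]
    (hX : Countable X)
    (ν : Measure X) [IsLocallyFiniteMeasure ν] (hν : ν ≠ 0)
    (T : Lp E 1 ν →L[ℝ] Lp E 1 ν) :
    ∃ ξ : Lp E 1 ν, ξ ≠ 0 ∧
      (∃ S : Set X, (∀ a ∈ S, ∀ b ∈ S, dist a b ≤ 0) ∧ ∀ᵐ z ∂ν, z ∉ S → ⇑ξ z = 0) ∧
      1 / 2 * ‖T‖ * ‖ξ‖ ≤ ‖T ξ‖ := by
  have hfin : ∀ x : X, ν {x} ≠ ∞ := fun x => isCompact_singleton.measure_lt_top.ne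
  have hsupp : ∀ (x : X) (v : E), ∃ S : Set X, (∀ a ∈ S, ∀ b ∈ S, dist a b ≤ 0) ∧
      ∀ᵐ z ∂ν, z ∉ S →
        (indicatorConstLp 1 (measurableSet_singleton x) (hfin x) v : Lp E 1 ν) z = 0 := by
    intro x v
    refine ⟨{x}, ?_, ?_⟩
    · rintro a rfl b rfl
      simp
    · have h2 : _ =ᵐ[ν] _ := indicatorConstLp_coeFn (p := 1) (hs := measurableSet_singleton x)
        (hμs := hfin x) (c := v)
      filter_upwards [h2] with z hz hzx
      rw [hz, Set.indicator_of_notMem hzx]
  by_cases hT : ‖T‖ = 0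
  · obtain ⟨x, hx⟩ : ∃ x, ν {x} ≠ 0 := by
      by_contra hcon
      push Not at hcon
      apply hν
      refine Measure.ext_of_singleton fun a => ?_
      rw [hcon a]
      simp
    obtain ⟨v, hv⟩ := exists_ne (0 : E)
    refine ⟨indicatorConstLp 1 (measurableSet_singleton x) (hfin x) v, ?_, hsupp x v, ?_⟩
    · rw [← norm_ne_zero_iff, norm_indicatorConstLp one_ne_zero ENNReal.one_ne_top]
      have h1 : 0 < ‖v‖ := norm_pos_iff.mpr hv
      have h2 : 0 < ν.real {x} := (ENNReal.toReal_pos hx (hfin x))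
      positivity
    · rw [hT]
      simp
  · by_contra hcon
    push Not at hcon
    have hTpos : 0 < ‖T‖ := lt_of_le_of_ne (norm_nonneg _) (Ne.symm hT)
    have hb : ∀ g, ‖T g‖ ≤ (1 / 2 * ‖T‖) * ‖g‖ := by
      refine L1_bound ν hfin T _ fun x v => ?_
      by_cases hz : (indicatorConstLp 1 (measurableSet_singleton x) (hfin x) v : Lp E 1 ν) = 0
      · rw [hz]
        simp
      · exact (hcon _ hz (hsupp x v)).le
    have h3 := T.opNorm_le_bound (by positivity) hb
    linarith

end Pool.Agent.J6H38.ONL
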