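import Pool.Agent.J6H38.ONL.Compact

/-!
# Operators on `L^p` of a finite set, and the weights of the duality lemma
-/

namespace Pool.Agent.J6H38.ONL

open Finset MeasureTheory
open scoped ENNReal

section finite

variable {ι : Type*} [Fintype ι] [DecidableEq ι]

/-- The weights vanish where the sizes vanish. -/
lemma weight_zero {p q : ℝ} (hpq : p.HolderConjugate q) {t : ι → ι → ℝ} {α : ι → ℝ}
    (ht : ∀ x y, 0 ≤ t x y) {x y : ι}
    (h : ∀ s s' : ℝ, 0 ≤ s → 0 ≤ s' → t x y * (s * s') ≤ α x * (s ^ p / p) + α y * (s' ^ q / q)) :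
    (α x = 0 → t x y = 0) ∧ (α y = 0 → t x y = 0) := by
  have hp := hpq.pos
  have hq := hpq.symm.pos
  constructor
  · intro hx
    by_contra hne
    have hpos : 0 < t x y := lt_of_le_of_ne (ht x y) (Ne.symm hne)
    have h1 := h ((|α y| + 1) * (1 / q) / t x y) 1 (by positivity) zero_le_one
    rw [hx, zero_mul, zero_add, mul_one, Real.one_rpow, mul_div_cancel₀ _ hpos.ne'] at h1
    have h2 : α y * (1 / q) ≤ |α y| * (1 / q) :=
      mul_le_mul_of_nonneg_right (le_abs_self _) (by positivity)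
    have h3 : 0 < 1 / q := by positivity
    nlinarith
  · intro hy
    by_contra hne
    have hpos : 0 < t x y := lt_of_le_of_ne (ht x y) (Ne.symm hne)
    have h1 := h 1 ((|α x| + 1) * (1 / p) / t x y) zero_le_one (by positivity)
    rw [hy, zero_mul, add_zero, one_mul, Real.one_rpow, mul_div_cancel₀ _ hpos.ne'] at h1
    have h2 : α x * (1 / p) ≤ |α x| * (1 / p) :=
      mul_le_mul_of_nonneg_right (le_abs_self _) (by positivity)
    have h3 : 0 < 1 / p := by positivity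
    nlinarith

/-- The kernel of the operator. -/
noncomputable def ker (p q : ℝ) (t : ι → ι → ℝ) (α : ι → ℝ) (y x : ι) : ℝ :=
  t x y * α x ^ (-(1 / p)) * α y ^ (-(1 / q))

omit [Fintype ι] [DecidableEq ι] in
lemma ker_nonneg {p q : ℝ} {t : ι → ι → ℝ} {α : ι → ℝ} (ht : ∀ x y, 0 ≤ t x y)
    (hα : ∀ x, 0 ≤ α x) (y x : ι) : 0 ≤ ker p q t α y x :=
  mul_nonneg (mul_nonneg (ht x y) (Real.rpow_nonneg (hα x) _)) (Real.rpow_nonneg (hα y) _)

/-- The local norm bound. -/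
lemma local_bound {p q : ℝ} (hpq : p.HolderConjugate q) {t : ι → ι → ℝ} {α : ι → ℝ}
    (ht : ∀ x y, 0 ≤ t x y) (hα : ∀ x, 0 ≤ α x) {F : Set ι} {φ : ι → ℝ} (hφ : ∀ x, 0 ≤ φ x)
    (hF1 : ∀ x, x ∉ F → φ x = 0) (hF2 : ∀ y, y ∉ F → ∑ x, ker p q t α y x * φ x = 0)
    (hloc : ∀ ξ η : ι → ℝ, (∀ x, 0 ≤ ξ x) → (∀ x, 0 ≤ η x) → (∀ x, x ∉ F → ξ x = 0 ∧ η x = 0) →
        ∑ x, ∑ y, t x y * (ξ x * η y) ≤ ∑ x, α x * (ξ x ^ p / p + η x ^ q / q)) :
    ∑ y, (∑ x, ker p q t α y x * φ x) ^ p ≤ ∑ x, φ x ^ p := by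
  have hp := hpq.pos
  have hq := hpq.symm.pos
  have hp1 : 0 < p - 1 := by
    have := hpq.lt
    linarith
  set ψ : ι → ℝ := fun y => ∑ x, ker p q t α y x * φ x with hψ
  have hψ0 : ∀ y, 0 ≤ ψ y := fun y =>
    Finset.sum_nonneg fun x _ => mul_nonneg (ker_nonneg ht hα y x) (hφ x)
  have h1 := hloc (fun x => α x ^ (-(1 / p)) * φ x) (fun y => α y ^ (-(1 / q)) * ψ y ^ (p - 1))
    (fun x => mul_nonneg (Real.rpow_nonneg (hα x) _) (hφ x))
    (fun x => mul_nonneg (Real.rpow_nonneg (hα x) _) (Real.rpow_nonneg (hψ0 x) _))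
    (fun x hx => by
      have e0 : ψ x = 0 := hF2 x hx
      rw [hF1 x hx, e0, Real.zero_rpow hp1.ne', mul_zero, mul_zero]
      exact ⟨rfl, rfl⟩)
  have e1 : ∑ x, ∑ y, t x y * ((α x ^ (-(1 / p)) * φ x) * (α y ^ (-(1 / q)) * ψ y ^ (p - 1))) =
      ∑ y, ψ y ^ p := by
    rw [Finset.sum_comm]
    refine Finset.sum_congr rfl fun y _ => ?_
    have e2 : ψ y ^ p = ψ y ^ (p - 1) * ψ y := by
      rcases (hψ0 y).eq_or_lt with h0 | h0
      · rw [← h0, Real.zero_rpow hp.ne', mul_zero]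
      · conv_rhs => rw [← Real.rpow_one (ψ y), ← Real.rpow_mul h0.le]
        rw [one_mul, ← Real.rpow_add h0]
        congr 1
        ring
    rw [e2, show ψ y ^ (p - 1) * ψ y = ψ y ^ (p - 1) * ∑ x, ker p q t α y x * φ x from rfl,
      Finset.mul_sum]
    refine Finset.sum_congr rfl fun x _ => ?_
    unfold ker
    ring
  have e3 : ∀ x, α x * ((α x ^ (-(1 / p)) * φ x) ^ p) ≤ φ x ^ p := by
    intro x
    rcases (hα x).eq_or_lt with h0 | h0
    · rw [← h0, zero_mul]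
      exact Real.rpow_nonneg (hφ x) _
    · rw [Real.mul_rpow (Real.rpow_nonneg h0.le _) (hφ x), ← Real.rpow_mul h0.le]
      have : -(1 / p) * p = -1 := by field_simp
      rw [this, Real.rpow_neg_one, ← mul_assoc, mul_inv_cancel₀ h0.ne', one_mul]
  have e4 : ∀ x, α x * ((α x ^ (-(1 / q)) * ψ x ^ (p - 1)) ^ q) ≤ ψ x ^ p := by
    intro x
    rcases (hα x).eq_or_lt with h0 | h0
    · rw [← h0, zero_mul]
      exact Real.rpow_nonneg (hψ0 x) _
    · rw [Real.mul_rpow (Real.rpow_nonneg h0.le _) (Real.rpow_nonneg (hψ0 x) _),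
        ← Real.rpow_mul h0.le, ← Real.rpow_mul (hψ0 x)]
      have e5 : -(1 / q) * q = -1 := by field_simp
      have e6 : (p - 1) * q = p := hpq.sub_one_mul_conj
      rw [e5, e6, Real.rpow_neg_one, ← mul_assoc, mul_inv_cancel₀ h0.ne', one_mul]
  have e7 : ∑ x, α x * ((α x ^ (-(1 / p)) * φ x) ^ p / p + (α x ^ (-(1 / q)) * ψ x ^ (p - 1)) ^ q / q)
      ≤ (∑ x, φ x ^ p) / p + (∑ x, ψ x ^ p) / q := by
    rw [Finset.sum_div, Finset.sum_div, ← Finset.sum_add_distrib]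
    refine Finset.sum_le_sum fun x _ => ?_
    rw [mul_add, mul_div_assoc', mul_div_assoc']
    exact add_le_add (div_le_div_of_nonneg_right (e3 x) hp.le)
      (div_le_div_of_nonneg_right (e4 x) hq.le)
  rw [e1] at h1
  have h2 := h1.trans e7
  have h3 := hpq.inv_add_inv_eq_one
  have h4 : (∑ x, ψ x ^ p) * p⁻¹ ≤ (∑ x, φ x ^ p) * p⁻¹ := by
    have h5 : (∑ x, ψ x ^ p) * p⁻¹ + (∑ x, ψ x ^ p) * q⁻¹ = ∑ x, ψ x ^ p := by
      rw [← mul_add, h3, mul_one]
    have h6 : (∑ x, φ x ^ p) / p = (∑ x, φ x ^ p) * p⁻¹ := div_eq_mul_inv _ _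
    have h7 : (∑ x, ψ x ^ p) / q = (∑ x, ψ x ^ p) * q⁻¹ := div_eq_mul_inv _ _
    rw [h6, h7] at h2
    linarith
  exact le_of_mul_le_mul_right h4 (inv_pos.mpr hp)

/-- The test vector `α ^ (1/p)`. -/
lemma global_bound {p q : ℝ} (hpq : p.HolderConjugate q) {t : ι → ι → ℝ} {α : ι → ℝ}
    (hα : ∀ x, 0 ≤ α x)
    (hz : ∀ x y, (α x = 0 → t x y = 0) ∧ (α y = 0 → t x y = 0)) :
    ∑ x, ∑ y, t x y ≤ (∑ y, |∑ x, ker p q t α y x * α x ^ (1 / p)| ^ p) ^ (1 / p) *
      (∑ x, α x) ^ (1 / q) := by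
  have hp := hpq.pos
  have hq := hpq.symm.pos
  have h1 := Real.inner_le_Lp_mul_Lq Finset.univ (fun y => ∑ x, ker p q t α y x * α x ^ (1 / p))
    (fun y => α y ^ (1 / q)) hpq
  have e1 : ∀ y, |α y ^ (1 / q)| ^ q = α y := by
    intro y
    rw [abs_of_nonneg (Real.rpow_nonneg (hα y) _), ← Real.rpow_mul (hα y),
      one_div_mul_cancel hq.ne', Real.rpow_one]
  simp_rw [e1] at h1
  refine le_trans (le_of_eq ?_) h1
  rw [Finset.sum_comm]
  refine Finset.sum_congr rfl fun y _ => ?_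
  rw [Finset.sum_mul]
  refine Finset.sum_congr rfl fun x _ => ?_
  unfold ker
  rcases (hα x).eq_or_lt with h0 | h0
  · rw [(hz x y).1 h0.symm]
    ring
  rcases (hα y).eq_or_lt with h0' | h0'
  · rw [(hz x y).2 h0'.symm]
    ring
  have e2 : α x ^ (-(1 / p)) * α x ^ (1 / p) = 1 := by
    rw [← Real.rpow_add h0, neg_add_cancel, Real.rpow_zero]
  have e3 : α y ^ (-(1 / q)) * α y ^ (1 / q) = 1 := by
    rw [← Real.rpow_add h0', neg_add_cancel, Real.rpow_zero]
  calc t x y = t x y * (α x ^ (-(1 / p)) * α x ^ (1 / p)) * (α y ^ (-(1 / q)) * α y ^ (1 / q)) := by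
        rw [e2, e3, mul_one, mul_one]
    _ = _ := by ring

end finite

/-! ### The Lebesgue space of a finite set -/

section Lp

variable {X : Type*} [MeasurableSpace X] [MeasurableSingletonClass X] (Y : Finset X)
  {P : ℝ≥0∞} [hP : Fact (1 ≤ P)]

/-- The counting measure of a finite set. -/
noncomputable def cnt : Measure X := Measure.count.restrict (Y : Set X)

instance : IsFiniteMeasure (cnt Y) := by
  constructor
  unfold cnt
  rw [Measure.restrict_apply_univ, Measure.count_apply_finset]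
  exact ENNReal.natCast_lt_top _

lemma ae_cnt {Q : X → Prop} : (∀ᵐ z ∂(cnt Y), Q z) ↔ ∀ z ∈ Y, Q z := by
  unfold cnt
  rw [ae_restrict_iff' Y.measurableSet, Measure.ae_count_iff]
  rfl

lemma cnt_singleton {x : X} (hx : x ∈ Y) : (cnt Y) {x} = 1 := by
  unfold cnt
  rw [Measure.restrict_apply (measurableSet_singleton x)]
  have : ({x} : Set X) ∩ (Y : Set X) = {x} := by
    ext z
    simp only [Set.mem_inter_iff, Set.mem_singleton_iff, mem_coe]
    constructor
    · exact fun h => h.1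
    · rintro rfl
      exact ⟨rfl, hx⟩
  rw [this, Measure.count_singleton]

/-- The coefficient space. -/
abbrev EE (P : ℝ≥0∞) : Type := lp (fun _ : ℕ => ℝ) P

lemma norm_rpow (hPt : P ≠ ⊤) (g : Lp (EE P) P (cnt Y)) :
    ‖g‖ ^ P.toReal = ∑ x ∈ Y, ‖g x‖ ^ P.toReal := by
  have hP0 : P ≠ 0 := (zero_lt_one.trans_le hP.out).ne'
  have hPr : 0 < P.toReal := ENNReal.toReal_pos hP0 hPt
  rw [Lp.norm_def, eLpNorm_eq_lintegral_rpow_enorm_toReal hP0 hPt]
  have h1 : ∫⁻ x, ‖g x‖ₑ ^ P.toReal ∂(cnt Y) = ∑ x ∈ Y, ‖g x‖ₑ ^ P.toReal := by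
    unfold cnt
    rw [lintegral_finset]
    refine Finset.sum_congr rfl fun x _ => ?_
    rw [Measure.count_singleton, mul_one]
  rw [h1, ← ENNReal.toReal_rpow, ← Real.rpow_mul ENNReal.toReal_nonneg,
    one_div_mul_cancel hPr.ne', Real.rpow_one, ENNReal.toReal_sum]
  · refine Finset.sum_congr rfl fun x _ => ?_
    rw [← ENNReal.toReal_rpow, toReal_enorm]
  · intro x _
    exact ENNReal.rpow_ne_top_of_nonneg hPr.le enorm_ne_top

/-- Evaluation at a point of the finite set. -/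
noncomputable def EV (hPt : P ≠ ⊤) (x : Y) : Lp (EE P) P (cnt Y) →L[ℝ] EE P :=
  LinearMap.mkContinuous
    { toFun := fun g => g (x : X)
      map_add' := fun g h => (ae_cnt Y).mp (Lp.coeFn_add g h) x x.2
      map_smul' := fun a g => (ae_cnt Y).mp (Lp.coeFn_smul a g) x x.2 } 1 (by
    intro g
    have hP0 : P ≠ 0 := (zero_lt_one.trans_le hP.out).ne'
    have hPr : 0 < P.toReal := ENNReal.toReal_pos hP0 hPt
    rw [one_mul]
    change ‖g (x : X)‖ ≤ ‖g‖
    refine (Real.rpow_le_rpow_iff (norm_nonneg _) (norm_nonneg _) hPr).mp ?_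
    rw [norm_rpow Y hPt]
    exact Finset.single_le_sum (f := fun z => ‖g z‖ ^ P.toReal)
      (fun z _ => Real.rpow_nonneg (norm_nonneg _) _) x.2)

lemma EV_apply (hPt : P ≠ ⊤) (x : Y) (g : Lp (EE P) P (cnt Y)) : EV Y hPt x g = g (x : X) := rfl

/-- The first coordinate functional. -/
noncomputable def crd (P : ℝ≥0∞) [hP : Fact (1 ≤ P)] : EE P →L[ℝ] ℝ :=
  LinearMap.mkContinuous
    { toFun := fun g => g 0
      map_add' := fun g h => rfl
      map_smul' := fun a g => rfl } 1 (by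
    intro g
    rw [one_mul]
    exact lp.norm_apply_le_norm (zero_lt_one.trans_le hP.out).ne' g 0)

omit [MeasurableSingletonClass X] [MeasurableSpace X] in
lemma crd_apply (g : EE P) : crd P g = g 0 := rfl

omit [MeasurableSingletonClass X] [MeasurableSpace X] in
lemma abs_crd_le (g : EE P) : |crd P g| ≤ ‖g‖ :=
  lp.norm_apply_le_norm (zero_lt_one.trans_le hP.out).ne' g 0

/-- The unit vector of the coefficient space. -/
noncomputable def e0 (P : ℝ≥0∞) : EE P := lp.single P 0 (1 : ℝ)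

omit [MeasurableSingletonClass X] [MeasurableSpace X] in
lemma norm_e0 : ‖e0 P‖ = 1 := by
  unfold e0
  rw [lp.norm_single (zero_lt_one.trans_le hP.out)]
  simp

omit [MeasurableSingletonClass X] [MeasurableSpace X] in
lemma crd_e0 : crd P (e0 P) = 1 := by
  rw [crd_apply]
  unfold e0
  simp

/-- The unit vector at a point. -/
noncomputable def ex (P : ℝ≥0∞) [hP : Fact (1 ≤ P)] (x : X) : Lp (EE P) P (cnt Y) :=
  indicatorConstLp P (measurableSet_singleton x) (measure_ne_top (cnt Y) {x}) (e0 P)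

lemma ex_apply (x : X) {z : X} (hz : z ∈ Y) : (ex Y P x : Lp (EE P) P (cnt Y)) z =
    ({x} : Set X).indicator (fun _ => e0 P) z := by
  have h : _ =ᵐ[cnt Y] _ := indicatorConstLp_coeFn (p := P) (hs := measurableSet_singleton x)
        (hμs := measure_ne_top (cnt Y) {x}) (c := e0 P)
  exact (ae_cnt Y).mp h z hz

/-- The operator with kernel `M`. -/
noncomputable def opT (hPt : P ≠ ⊤) (M : Y → Y → ℝ) : Lp (EE P) P (cnt Y) →L[ℝ] Lp (EE P) P (cnt Y) :=
  ∑ y : Y, ∑ x : Y, M y x • ((crd P).comp (EV Y hPt x)).smulRight (ex Y P (y : X))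

open Classical in
lemma opT_apply (hPt : P ≠ ⊤) (M : Y → Y → ℝ) (g : Lp (EE P) P (cnt Y)) (z : Y) :
    (opT Y hPt M g) (z : X) = (∑ x : Y, M z x * crd P (g (x : X))) • e0 P := by
  rw [← EV_apply Y hPt z]
  unfold opT
  rw [_root_.sum_apply, map_sum]
  have h1 : ∀ y : Y, EV Y hPt z ((∑ x : Y, M y x • ((crd P).comp (EV Y hPt x)).smulRight
      (ex Y P (y : X))) g) = if y = z then (∑ x : Y, M z x * crd P (g (x : X))) • e0 P else 0 := by
    intro y
    rw [_root_.sum_apply, map_sum]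
    have h2 : ∀ x : Y, EV Y hPt z ((M y x • ((crd P).comp (EV Y hPt x)).smulRight
        (ex Y P (y : X))) g) = (M y x * crd P (g (x : X))) • EV Y hPt z (ex Y P (y : X)) := by
      intro x
      rw [_root_.smul_apply, ContinuousLinearMap.smulRight_apply, map_smul, map_smul,
        smul_smul]
      rfl
    rw [Finset.sum_congr rfl fun x _ => h2 x, ← Finset.sum_smul, EV_apply, ex_apply Y _ z.2]
    by_cases hyz : y = z
    · subst hyz
      rw [if_pos rfl, Set.indicator_of_mem (Set.mem_singleton _)]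
    · rw [if_neg hyz, Set.indicator_of_notMem, smul_zero]
      intro h
      exact hyz (Subtype.ext h.symm)
  rw [Finset.sum_congr rfl fun y _ => h1 y]
  simp

lemma norm_opT (hPt : P ≠ ⊤) (M : Y → Y → ℝ) (g : Lp (EE P) P (cnt Y)) :
    ‖opT Y hPt M g‖ ^ P.toReal = ∑ z : Y, |∑ x : Y, M z x * crd P (g (x : X))| ^ P.toReal := by
  rw [norm_rpow Y hPt, ← Finset.sum_coe_sort Y]
  refine Finset.sum_congr rfl fun z _ => ?_
  rw [opT_apply, norm_smul, norm_e0, mul_one, Real.norm_eq_abs]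

/-- A test vector. -/
noncomputable def tv (P : ℝ≥0∞) [hP : Fact (1 ≤ P)] (a : Y → ℝ) : Lp (EE P) P (cnt Y) :=
  ∑ x : Y, a x • ex Y P (x : X)

open Classical in
lemma tv_apply (hPt : P ≠ ⊤) (a : Y → ℝ) (z : Y) : (tv Y P a) (z : X) = a z • e0 P := by
  rw [← EV_apply Y hPt z]
  unfold tv
  rw [map_sum]
  have h1 : ∀ x : Y, EV Y hPt z (a x • ex Y P (x : X)) = if x = z then a z • e0 P else 0 := by
    intro x
    rw [map_smul, EV_apply, ex_apply Y _ z.2]
    by_cases hyz : x = z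
    · subst hyz
      rw [if_pos rfl, Set.indicator_of_mem (Set.mem_singleton _)]
    · rw [if_neg hyz, Set.indicator_of_notMem, smul_zero]
      intro h
      exact hyz (Subtype.ext h.symm)
  rw [Finset.sum_congr rfl fun x _ => h1 x]
  simp

lemma norm_tv (hPt : P ≠ ⊤) (a : Y → ℝ) : ‖tv Y P a‖ ^ P.toReal = ∑ x : Y, |a x| ^ P.toReal := by
  rw [norm_rpow Y hPt, ← Finset.sum_coe_sort Y]
  refine Finset.sum_congr rfl fun z _ => ?_
  rw [tv_apply Y hPt, norm_smul, norm_e0, mul_one, Real.norm_eq_abs]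

end Lp

end Pool.Agent.J6H38.ONL
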