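import Pool.Agent.J6H38.ONL.Defs
import Pool.Agent.J6H38.ONL.Operator
import Pool.Agent.J6H38.ONL.OnePONL

/-!
# The `p`-operator norm localization property implies property A for `1 < p < ∞`
-/

namespace Pool.Agent.J6H38.ONL

open MeasureTheory
open scoped ENNReal

/-- A metric space with finite balls is discrete. -/
lemma isOpen_singleton_of_bg {X : Type} [MetricSpace X] (hbg : BoundedGeom X) (x : X) :
    IsOpen ({x} : Set X) := by
  obtain ⟨N, hN⟩ := hbg 1 one_pos
  have h1 : (Metric.ball x 1 \ {x}).Finite := (hN x).1.subset Set.diff_subset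
  have h2 : ({x} : Set X) = Metric.ball x 1 ∩ (Metric.ball x 1 \ {x})ᶜ := by
    ext z
    simp only [Set.mem_singleton_iff, Set.mem_inter_iff, Set.mem_compl_iff, Set.mem_diff]
    constructor
    · rintro rfl
      exact ⟨Metric.mem_ball_self one_pos, fun h => h.2 rfl⟩
    · rintro ⟨h3, h4⟩
      by_contra h5
      exact h4 ⟨h3, h5⟩
  rw [h2]
  exact Metric.isOpen_ball.inter h1.isClosed.isOpen_compl

/-- The property in terms of Mathlib's `Lp`. -/
lemma onl_iff {p : ℝ≥0∞} [hP : Fact (1 ≤ p)] {X : Type} [MetricSpace X] [MeasurableSpace X] :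
    ONL p X ↔ ∃ c : ℝ, 0 < c ∧ c ≤ 1 ∧ ∃ f : ℕ → ℕ, Monotone f ∧
        ∀ (ν : Measure X) [IsLocallyFiniteMeasure ν], ν ≠ 0 → ∀ r : ℕ,
          ∀ T : Lp (lp (fun _ : ℕ => ℝ) p) p ν →L[ℝ] Lp (lp (fun _ : ℕ => ℝ) p) p ν,
            (∀ x y : X, (r : ℝ) < dist x y →
              ∃ U V : Set X, IsOpen U ∧ IsOpen V ∧ x ∈ U ∧ y ∈ V ∧
                ∀ g : Lp (lp (fun _ : ℕ => ℝ) p) p ν,
                  (∀ᵐ z ∂ν, z ∉ U → ⇑g z = 0) → ∀ᵐ z ∂ν, z ∈ V → ⇑(T g) z = 0) →
            ∃ ξ : Lp (lp (fun _ : ℕ => ℝ) p) p ν, ξ ≠ 0 ∧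
              (∃ S : Set X, (∀ a ∈ S, ∀ b ∈ S, dist a b ≤ (f r : ℝ)) ∧
                ∀ᵐ z ∂ν, z ∉ S → ⇑ξ z = 0) ∧
              c * ‖T‖ * ‖ξ‖ ≤ ‖T ξ‖ := by
  constructor
  · rintro ⟨c, h1, h2, f, h3, hT⟩
    refine ⟨c, h1, h2, f, h3, fun ν _ hν r T hprop => ?_⟩
    refine hT ν hν r T fun x y hxy => ?_
    obtain ⟨U, V, a1, a2, a3, a4, a5⟩ := hprop x y hxy
    refine ⟨U, V, a1, a2, a3, a4, fun g hg => ?_⟩
    have a6 := a5 g hg
    refine a6.mono fun z hz hz2 => hz ?_
    rwa [Set.mem_compl_iff, not_not] at hz2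
  · rintro ⟨c, h1, h2, f, h3, hT⟩
    refine ⟨c, h1, h2, f, h3, fun ν _ hν r T hprop => ?_⟩
    refine hT ν hν r T fun x y hxy => ?_
    obtain ⟨U, V, a1, a2, a3, a4, a5⟩ := hprop x y hxy
    refine ⟨U, V, a1, a2, a3, a4, fun g hg => ?_⟩
    have a6 : SupportedIn (T g) Vᶜ := a5 g hg
    refine a6.mono fun z hz hz2 => hz ?_
    rwa [Set.mem_compl_iff, not_not]

theorem propA_of_onl {p : ℝ≥0∞} [hP : Fact (1 ≤ p)] (hpt : p ≠ ⊤) (hp1 : 1 < p)
    {X : Type} [MetricSpace X] [MeasurableSpace X] [BorelSpace X]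
    (hbg : BoundedGeom X) (h : ONL p X) : PropertyA X := by
  classical
  obtain ⟨c, hc0, -, f, -, hT⟩ := onl_iff.mp h
  set P : ℝ := p.toReal with hPdef
  have hP1 : 1 < P := by
    rw [hPdef, ← ENNReal.toReal_one]
    exact (ENNReal.toReal_lt_toReal ENNReal.one_ne_top hpt).mpr hp1
  have hPpos : 0 < P := by linarith
  set Q : ℝ := P.conjExponent with hQ
  have hPQ : P.HolderConjugate Q := Real.HolderConjugate.conjExponent hP1
  have hQpos := hPQ.symm.pos
  refine propA_of_cone hbg hPQ (κ := c / 2) (by positivity) ?_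
  intro r hr
  set n : ℕ := ⌈r⌉₊ with hn
  have hrn : r ≤ n := Nat.le_ceil r
  refine ⟨f n + 2 * n, fun Y => ?_⟩
  refine dual_exists (c := c) hPQ (by positivity) (by linarith) ?_
  intro t α ht hα htD hloc
  -- the empty case
  rcases Y.eq_empty_or_nonempty with hY | hY
  · subst hY
    simp
  -- vanishing of the weights
  have hsingle : ∀ (x y : Y) (s s' : ℝ), 0 ≤ s → 0 ≤ s' → t x y * (s * s') ≤
      α x * (s ^ P / P) + α y * (s' ^ Q / Q) := by
    intro x y s s' hs hs'
    by_cases hD : dist (x : X) y ≤ r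
    · have h1 := hloc {x, y} ?_ (Pi.single x s) (Pi.single y s') ?_ ?_ ?_
      · have e1 : ∑ a : Y, ∑ b : Y, t a b * ((Pi.single x s : Y → ℝ) a * (Pi.single y s' : Y → ℝ) b) =
            t x y * (s * s') := by
          rw [Finset.sum_eq_single x]
          · rw [Finset.sum_eq_single y]
            · simp
            · intro b _ hb
              simp [Pi.single_apply, hb]
            · simp
          · intro a _ ha
            refine Finset.sum_eq_zero fun b _ => ?_
            simp [Pi.single_apply, ha]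
          · simp
        have e2 : ∑ a : Y, α a * ((Pi.single x s : Y → ℝ) a ^ P / P + (Pi.single y s' : Y → ℝ) a ^ Q / Q) =
            α x * (s ^ P / P) + α y * (s' ^ Q / Q) := by
          simp_rw [mul_add]
          rw [Finset.sum_add_distrib]
          congr 1
          · rw [Finset.sum_eq_single x]
            · simp
            · intro b _ hb
              simp [Pi.single_apply, hb, Real.zero_rpow hPpos.ne']
            · simp
          · rw [Finset.sum_eq_single y]
            · simp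
            · intro b _ hb
              simp [Pi.single_apply, hb, Real.zero_rpow hQpos.ne']
            · simp
        rw [e1, e2] at h1
        exact h1
      · have hf0 : (0 : ℝ) ≤ f n := Nat.cast_nonneg _
        have hn0 : (0 : ℝ) ≤ n := Nat.cast_nonneg _
        rintro a ha b hb
        rcases ha with rfl | ha <;> rcases hb with rfl | hb
        · rw [dist_self]
          positivity
        · rw [Set.mem_singleton_iff] at hb
          subst hb
          linarith
        · rw [Set.mem_singleton_iff] at ha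
          subst ha
          rw [dist_comm]
          linarith
        · rw [Set.mem_singleton_iff] at ha hb
          subst ha hb
          rw [dist_self]
          positivity
      · intro a
        rw [Pi.single_apply]
        split_ifs <;> [exact hs; exact le_rfl]
      · intro a
        rw [Pi.single_apply]
        split_ifs <;> [exact hs'; exact le_rfl]
      · intro a ha
        simp only [Set.mem_insert_iff, Set.mem_singleton_iff, not_or] at ha
        exact ⟨by simp [Pi.single_apply, ha.1], by simp [Pi.single_apply, ha.2]⟩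
    · rw [htD x y hD, zero_mul]
      have := hα x
      have := hα y
      positivity
  have hz : ∀ x y, (α x = 0 → t x y = 0) ∧ (α y = 0 → t x y = 0) := fun x y =>
    weight_zero hPQ ht (hsingle x y)
  -- the operator
  set M : Y → Y → ℝ := ker P Q t α with hM
  set T := opT Y hpt M with hTdef
  have hν : cnt Y ≠ 0 := by
    intro h0
    obtain ⟨x, hx⟩ := hY
    have h1 := cnt_singleton Y hx
    rw [h0] at h1
    simp at h1
  have hprop : ∀ x y : X, (n : ℝ) < dist x y →
      ∃ U V : Set X, IsOpen U ∧ IsOpen V ∧ x ∈ U ∧ y ∈ V ∧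
        ∀ g : Lp (lp (fun _ : ℕ => ℝ) p) p (cnt Y),
          (∀ᵐ z ∂(cnt Y), z ∉ U → ⇑g z = 0) → ∀ᵐ z ∂(cnt Y), z ∈ V → ⇑(T g) z = 0 := by
    intro x y hxy
    refine ⟨{x}, {y}, isOpen_singleton_of_bg hbg x, isOpen_singleton_of_bg hbg y, rfl, rfl,
      fun g hg => ?_⟩
    rw [ae_cnt] at hg ⊢
    intro z hz1 hz2
    rw [Set.mem_singleton_iff] at hz2
    subst hz2
    have h1 := opT_apply Y hpt M g ⟨z, hz1⟩
    dsimp only at h1
    rw [hTdef, h1, Finset.sum_eq_zero, zero_smul]
    intro x' _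
    by_cases hx' : (x' : X) = x
    · have h2 : t x' ⟨z, hz1⟩ = 0 := by
        apply htD
        rw [hx']
        have := hrn.trans_lt hxy
        exact not_le.mpr this
      rw [hM]
      unfold ker
      rw [h2]
      simp
    · rw [hg x' x'.2 (by simpa using hx'), map_zero, mul_zero]
  obtain ⟨ξ, hξ0, ⟨S, hS1, hS2⟩, hξ⟩ := hT (cnt Y) hν n T hprop
  rw [ae_cnt] at hS2
  -- the local bound
  have hup : ‖T ξ‖ ≤ ‖ξ‖ := by
    rw [← Real.rpow_le_rpow_iff (norm_nonneg _) (norm_nonneg _) hPpos, hTdef, norm_opT Y hpt,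
      norm_rpow Y hpt, ← Finset.sum_coe_sort Y]
    set φ : Y → ℝ := fun x => |crd p (ξ (x : X))| with hφ
    have h1 : ∀ z : Y, |∑ x : Y, M z x * crd p (ξ (x : X))| ^ P ≤ (∑ x : Y, M z x * φ x) ^ P := by
      intro z
      refine Real.rpow_le_rpow (abs_nonneg _) ?_ hPpos.le
      refine (Finset.abs_sum_le_sum_abs _ _).trans (le_of_eq ?_)
      refine Finset.sum_congr rfl fun x _ => ?_
      rw [abs_mul, abs_of_nonneg (ker_nonneg ht hα z x)]
    refine (Finset.sum_le_sum fun z _ => h1 z).trans ?_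
    have h2 : ∀ x : Y, φ x ^ P ≤ ‖ξ (x : X)‖ ^ P := fun x =>
      Real.rpow_le_rpow (abs_nonneg _) (abs_crd_le _) hPpos.le
    refine le_trans ?_ (Finset.sum_le_sum fun x _ => h2 x)
    have hφS : ∀ x : Y, (x : X) ∉ S → φ x = 0 := by
      intro x hx
      rw [hφ]
      dsimp only
      rw [hS2 x x.2 hx, map_zero, abs_zero]
    refine local_bound (F := {z : Y | ∃ a : Y, (a : X) ∈ S ∧ dist (a : X) z ≤ n}) hPQ ht hα
      (fun x => abs_nonneg _) ?_ ?_ ?_
    · intro x hx
      apply hφS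
      intro hxS
      apply hx
      exact ⟨x, hxS, by rw [dist_self]; exact Nat.cast_nonneg _⟩
    · intro y hy
      refine Finset.sum_eq_zero fun x _ => ?_
      by_cases hxS : (x : X) ∈ S
      · have h3 : ¬ dist (x : X) y ≤ r := fun h4 => hy ⟨x, hxS, h4.trans hrn⟩
        unfold ker
        rw [htD x y h3]
        simp
      · rw [hφS x hxS, mul_zero]
    · refine hloc _ ?_
      rintro a ⟨a', ha', ha2⟩ b ⟨b', hb', hb2⟩
      have h3 := hS1 a' ha' b' hb'
      have h4 := dist_triangle4 (a : X) a' b' b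
      rw [dist_comm (a : X) a'] at h4
      linarith
  have hξpos : 0 < ‖ξ‖ := norm_pos_iff.mpr hξ0
  have hcT : c * ‖T‖ ≤ 1 := by
    have h1 : c * ‖T‖ * ‖ξ‖ ≤ 1 * ‖ξ‖ := by
      rw [one_mul]
      exact hξ.trans hup
    exact le_of_mul_le_mul_right h1 hξpos
  -- the global bound
  set s : ℝ := ∑ x, α x with hs
  have hs0 : 0 ≤ s := Finset.sum_nonneg fun x _ => hα x
  have hlow : ∑ x, ∑ y, t x y ≤ ‖T‖ * s := by
    have h1 := global_bound hPQ (t := t) hα hz
    set a : Y → ℝ := fun x => α x ^ (1 / P) with ha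
    have h2 : (∑ y, |∑ x, ker P Q t α y x * α x ^ (1 / P)| ^ P) ^ (1 / P) = ‖T (tv Y p a)‖ := by
      have e1 : ∑ y, |∑ x, ker P Q t α y x * α x ^ (1 / P)| ^ P = ‖T (tv Y p a)‖ ^ P := by
        rw [hTdef, norm_opT Y hpt]
        refine Finset.sum_congr rfl fun y _ => ?_
        congr 2
        refine Finset.sum_congr rfl fun x _ => ?_
        rw [tv_apply Y hpt, map_smul, crd_e0, smul_eq_mul, mul_one]
      rw [e1, ← Real.rpow_mul (norm_nonneg _), mul_one_div_cancel hPpos.ne', Real.rpow_one]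
    have h3 : ‖tv Y p a‖ = s ^ (1 / P) := by
      have e1 : ‖tv Y p a‖ ^ P = s := by
        rw [norm_tv Y hpt]
        refine Finset.sum_congr rfl fun x _ => ?_
        rw [ha]
        dsimp only
        rw [abs_of_nonneg (Real.rpow_nonneg (hα x) _), ← Real.rpow_mul (hα x),
          one_div_mul_cancel hPpos.ne', Real.rpow_one]
      rw [← e1, ← Real.rpow_mul (norm_nonneg _), mul_one_div_cancel hPpos.ne', Real.rpow_one]
    rw [h2] at h1
    refine h1.trans ?_
    have h4 := T.le_opNorm (tv Y p a)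
    rw [h3] at h4
    have h5 : ‖T (tv Y p a)‖ * s ^ (1 / Q) ≤ ‖T‖ * s ^ (1 / P) * s ^ (1 / Q) :=
      mul_le_mul_of_nonneg_right h4 (Real.rpow_nonneg hs0 _)
    refine h5.trans (le_of_eq ?_)
    rw [mul_assoc, ← Real.rpow_add_of_nonneg hs0 (by positivity) (by positivity)]
    have : 1 / P + 1 / Q = 1 := by
      rw [one_div, one_div]
      exact hPQ.inv_add_inv_eq_one
    rw [this, Real.rpow_one]
  calc c * ∑ x, ∑ y, t x y ≤ c * (‖T‖ * s) := mul_le_mul_of_nonneg_left hlow hc0.le
    _ = (c * ‖T‖) * s := by ring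
    _ ≤ 1 * s := mul_le_mul_of_nonneg_right hcT hs0
    _ = s := one_mul s

/-- Every space of bounded geometry has the `1`-operator norm localization property. -/
theorem onl_one [hP : Fact ((1 : ℝ≥0∞) ≤ 1)] {X : Type} [MetricSpace X] [MeasurableSpace X]
    [BorelSpace X] (hbg : BoundedGeom X) : ONL 1 X := by
  rw [onl_iff]
  refine ⟨1 / 2, by norm_num, by norm_num, fun _ => 0, fun _ _ _ => le_rfl, ?_⟩
  intro ν hν hν0 r T _
  haveI : Nontrivial (lp (fun _ : ℕ => ℝ) 1) :=
    ⟨lp.single 1 0 (1 : ℝ), 0, fun hcon => by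
      have h2 := congrArg (fun f : lp (fun _ : ℕ => ℝ) 1 => f 0) hcon
      simp at h2⟩
  obtain ⟨ξ, h2, h3, h4⟩ := one_onl (countable_of_balls hbg) ν hν0 T
  refine ⟨ξ, h2, ?_, h4⟩
  simpa using h3

/-- There is a space of bounded geometry without property A. -/
theorem exists_not_propertyA : ∃ (X : Type) (_ : MetricSpace X), BoundedGeom X ∧ ¬ PropertyA X := by
  refine ⟨Pool.Agent.R302.Roe.PX, inferInstance, ?_, not_propA⟩
  intro R _
  obtain ⟨N, hN⟩ := Pool.Agent.R302.Roe.bddGeom R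
  refine ⟨N, fun x => ?_⟩
  have h1 : (Metric.ball x R).encard ≤ N :=
    (Set.encard_le_encard Metric.ball_subset_closedBall).trans (hN x)
  have h2 : (Metric.ball x R).Finite := Set.finite_of_encard_le_coe h1
  refine ⟨h2, ?_⟩
  rw [← Nat.cast_le (α := ℕ∞), h2.cast_ncard_eq]
  exact h1

end Pool.Agent.J6H38.ONL
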