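import Mathlib

/-!
# Operators on `L¹` of a countable space: the norm localises at points
-/

namespace Pool.Agent.J6H38.ONL

open MeasureTheory
open scoped ENNReal

variable {X : Type*} [MeasurableSpace X] [MeasurableSingletonClass X]
  {E : Type*} [NormedAddCommGroup E] [NormedSpace ℝ E]

/-- An integrable function on a countable space is the sum of its values at the points. -/
lemma hasSum_points [Countable X] (ν : Measure X) (hfin : ∀ x : X, ν {x} ≠ ∞) (g : Lp E 1 ν) :
    HasSum (fun x : X => indicatorConstLp 1 (measurableSet_singleton x) (hfin x) (g x)) g := by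
  classical
  have hgi : Integrable (g : X → E) ν := L1.integrable_coeFn g
  have hs : HasSum (fun x : X => ∫ a in {x}, ‖g a‖ ∂ν) (∫ a in ⋃ x : X, {x}, ‖g a‖ ∂ν) := by
    refine hasSum_integral_iUnion (fun x => measurableSet_singleton x) ?_ hgi.norm.integrableOn
    intro x y hxy
    exact Set.disjoint_singleton.mpr hxy
  have hU : (⋃ x : X, ({x} : Set X)) = Set.univ := by
    ext x
    simp
  rw [hU, setIntegral_univ] at hs
  have hF : ∀ F : Finset X, (∑ x ∈ F, indicatorConstLp 1 (measurableSet_singleton x) (hfin x) (g x) : Lp E 1 ν)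
      =ᵐ[ν] Set.indicator (F : Set X) g := by
    intro F
    induction F using Finset.induction_on with
    | empty =>
      simp only [Finset.sum_empty, Finset.coe_empty, Set.indicator_empty]
      exact Lp.coeFn_zero _ _ _
    | insert a F ha ih =>
      rw [Finset.sum_insert ha]
      have h1 := Lp.coeFn_add (indicatorConstLp 1 (measurableSet_singleton a) (hfin a) (g a))
        (∑ x ∈ F, indicatorConstLp 1 (measurableSet_singleton x) (hfin x) (g x) : Lp E 1 ν)
      have h2 : _ =ᵐ[ν] _ := indicatorConstLp_coeFn (p := 1) (hs := measurableSet_singleton a)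
        (hμs := hfin a) (c := g a)
      filter_upwards [h1, h2, ih] with z h1 h2 h3
      rw [h1, Pi.add_apply, h2, h3]
      by_cases hz : z = a
      · subst hz
        rw [Set.indicator_of_mem (Set.mem_singleton z), Set.indicator_of_notMem (by simpa using ha),
          Set.indicator_of_mem (by simp), add_zero]
      · rw [Set.indicator_of_notMem (by simpa using hz), zero_add]
        by_cases hz2 : z ∈ F
        · rw [Set.indicator_of_mem (by simpa using hz2), Set.indicator_of_mem (by simp [hz2])]
        · rw [Set.indicator_of_notMem (by simpa using hz2),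
            Set.indicator_of_notMem (by simp [hz, hz2])]
  rw [HasSum, tendsto_iff_norm_sub_tendsto_zero]
  have hnorm : ∀ F : Finset X,
      ‖(∑ x ∈ F, indicatorConstLp 1 (measurableSet_singleton x) (hfin x) (g x) : Lp E 1 ν) - g‖ =
      ∫ a, ‖g a‖ ∂ν - ∑ x ∈ F, ∫ a in {x}, ‖g a‖ ∂ν := by
    intro F
    rw [L1.norm_eq_integral_norm]
    have h1 : (fun a => ‖((∑ x ∈ F, indicatorConstLp 1 (measurableSet_singleton x) (hfin x) (g x) :
        Lp E 1 ν) - g : Lp E 1 ν) a‖) =ᵐ[ν] fun a => ‖g a‖ - Set.indicator (F : Set X) (fun a => ‖g a‖) a := by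
      have h2 := Lp.coeFn_sub (∑ x ∈ F, indicatorConstLp 1 (measurableSet_singleton x) (hfin x) (g x) :
        Lp E 1 ν) g
      filter_upwards [h2, hF F] with z h2 h3
      rw [h2, Pi.sub_apply, h3]
      by_cases hz : z ∈ F
      · rw [Set.indicator_of_mem (by simpa using hz), Set.indicator_of_mem (by simpa using hz),
          sub_self, sub_self, norm_zero]
      · rw [Set.indicator_of_notMem (by simpa using hz), Set.indicator_of_notMem (by simpa using hz),
          zero_sub, norm_neg, sub_zero]
    rw [integral_congr_ae h1, integral_sub hgi.norm (hgi.norm.indicator F.measurableSet),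
      integral_indicator F.measurableSet]
    congr 1
    have hFU : (F : Set X) = ⋃ x ∈ F, ({x} : Set X) := by
      ext x
      simp
    rw [hFU, integral_biUnion_finset]
    · intro x _
      exact measurableSet_singleton x
    · intro x _ y _ hxy
      exact Set.disjoint_singleton.mpr hxy
    · intro x _
      exact hgi.norm.integrableOn
  simp_rw [hnorm]
  have h4 := hs.const_sub (∫ a, ‖g a‖ ∂ν)
  have h5 : Filter.Tendsto (fun F : Finset X => ∑ x ∈ F, ∫ a in {x}, ‖g a‖ ∂ν) Filter.atTop
    (nhds (∫ a, ‖g a‖ ∂ν)) := hs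
  have h6 := h5.const_sub (∫ a, ‖g a‖ ∂ν)
  rwa [sub_self] at h6

/-- A bound for an operator on `L¹` follows from the bound at vectors supported at points. -/
lemma L1_bound [Countable X] (ν : Measure X) (hfin : ∀ x : X, ν {x} ≠ ∞)
    (T : Lp E 1 ν →L[ℝ] Lp E 1 ν) (K : ℝ)
    (h : ∀ x : X, ∀ v : E, ‖T (indicatorConstLp 1 (measurableSet_singleton x) (hfin x) v)‖ ≤
      K * ‖(indicatorConstLp 1 (measurableSet_singleton x) (hfin x) v : Lp E 1 ν)‖)
    (g : Lp E 1 ν) : ‖T g‖ ≤ K * ‖g‖ := by
  classical
  have hgi : Integrable (g : X → E) ν := L1.integrable_coeFn g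
  have hs : HasSum (fun x : X => ∫ a in {x}, ‖g a‖ ∂ν) (∫ a in ⋃ x : X, {x}, ‖g a‖ ∂ν) := by
    refine hasSum_integral_iUnion (fun x => measurableSet_singleton x) ?_ hgi.norm.integrableOn
    intro x y hxy
    exact Set.disjoint_singleton.mpr hxy
  have hU : (⋃ x : X, ({x} : Set X)) = Set.univ := by
    ext x
    simp
  rw [hU, setIntegral_univ, ← L1.norm_eq_integral_norm] at hs
  have hn : ∀ x : X, ‖(indicatorConstLp 1 (measurableSet_singleton x) (hfin x) (g x) : Lp E 1 ν)‖ =
      ∫ a in {x}, ‖g a‖ ∂ν := by
    intro x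
    rw [norm_indicatorConstLp one_ne_zero ENNReal.one_ne_top, integral_singleton, smul_eq_mul,
      ENNReal.toReal_one, div_one, Real.rpow_one, mul_comm]
  have h1 := (hasSum_points ν hfin g).mapL T
  have h2 := hs.mul_left K
  refine h1.norm_le_of_bounded h2 fun x => ?_
  rw [← hn]
  exact h x (g x)

end Pool.Agent.J6H38.ONL
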